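import Pool.Agent.Lib.MP_60829e_nt.HS.Main
import Pool.Agent.Lib.MP_60829e_nt.HD.NatP

/-! # Hilbert functions of logarithms: definitions

`Sp lam` is the `Qa`-space spanned by `1` and the `lam i`; `Sp lam ^ m` (power of a submodule of the
algebra `ℂ`) is the space of the values at `lam` of the polynomials of degree at most `m`. -/

open Module

namespace MP60829e.HF

open MP60829e.ST (Qa Lsp Lt)

/-- the space spanned by `1` and the `lam i` -/
noncomputable def Sp {N : ℕ} (lam : Fin N → ℂ) : Submodule Qa ℂ :=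
  Submodule.span Qa ({1} ∪ Set.range lam)

/-- the space spanned by `1` and `u` -/
noncomputable def Un (u : ℂ) : Submodule Qa ℂ := Submodule.span Qa {1, u}

/-- the numbers `u`, `w` satisfy a nonzero polynomial relation of degree at most `D` -/
def Rel (D : ℕ) (u w : ℂ) : Prop :=
  ∃ P : MvPolynomial (Fin 2) Qa, P ≠ 0 ∧ P.totalDegree ≤ D ∧ MvPolynomial.aeval ![u, w] P = 0

theorem one_mem_Sp {N : ℕ} (lam : Fin N → ℂ) : (1 : ℂ) ∈ Sp lam :=
  Submodule.subset_span (Or.inl rfl)

theorem mem_Sp {N : ℕ} (lam : Fin N → ℂ) (i : Fin N) : lam i ∈ Sp lam :=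
  Submodule.subset_span (Or.inr ⟨i, rfl⟩)

theorem fin_Sp {N : ℕ} (lam : Fin N → ℂ) : FiniteDimensional Qa (Sp lam) :=
  FiniteDimensional.span_of_finite Qa ((Set.finite_singleton _).union (Set.finite_range _))

end MP60829e.HF
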