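import Pool.Agent.Lib.MP_60829e_nt.HF.Main
import Pool.Agent.Lib.MP_60829e_nt.TV.Star
import Pool.Agent.Lib.MP_60829e_nt.TV.Sub

/-! # Pairs without relations are generic -/

open MvPolynomial Module

namespace MP60829e.HF

open MP60829e.ST (Qa Lsp Lt)
open TV (ev star)

/-- Linear independence at one point gives linear independence off a hypersurface. -/
theorem gen_minor {σ ι : Type} [Fintype ι] (F : ι → MvPolynomial σ ℂ) (c0 : σ → Qa)
    (h : LinearIndependent Qa fun i => ev c0 (F i)) :
    ∃ H : MvPolynomial σ Qa, H ≠ 0 ∧ H.totalDegree ≤ ∑ i, (F i).totalDegree ∧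
      ∀ c : σ → Qa, eval c H ≠ 0 → LinearIndependent Qa fun i => ev c (F i) := by
  classical
  have hinj : Function.Injective (Fintype.linearCombination Qa (fun i => ev c0 (F i))) := by
    rw [← LinearMap.ker_eq_bot, LinearMap.ker_eq_bot']
    intro c hc
    rw [Fintype.linearIndependent_iff] at h
    funext a
    exact h c hc a
  obtain ⟨g, hg⟩ := LinearMap.exists_leftInverse_of_injective _ (LinearMap.ker_eq_bot.2 hinj)
  obtain ⟨ψ, hψ⟩ : ∃ ψ : ι → (ℂ →ₗ[Qa] Qa), ψ = fun i' => (LinearMap.proj i').comp g := ⟨_, rfl⟩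
  have hdual : ∀ i' i : ι, ψ i' (ev c0 (F i)) = if i' = i then 1 else 0 := by
    intro a' a
    have h1 := congrFun (LinearMap.congr_fun hg (Pi.single a 1)) a'
    rw [LinearMap.comp_apply, Fintype.linearCombination_apply_single, one_smul,
      LinearMap.id_apply, Pi.single_apply] at h1
    rw [hψ]
    exact h1
  obtain ⟨M, hM⟩ : ∃ M : Matrix ι ι (MvPolynomial σ Qa),
      M = fun i' i => star (ψ i') (F i) := ⟨_, rfl⟩
  have heval : ∀ c : σ → Qa, eval c M.det = Matrix.det (fun i' i => ψ i' (ev c (F i))) := by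
    intro c
    rw [RingHom.map_det]
    congr 1
    funext i' i
    rw [RingHom.mapMatrix_apply, Matrix.map_apply, hM]
    dsimp only
    rw [TV.eval_star]
  refine ⟨M.det, ?_, ?_, ?_⟩
  · intro h0
    have h1 := heval c0
    rw [h0, map_zero] at h1
    have h2 : (fun i' i : ι => ψ i' (ev c0 (F i))) = (1 : Matrix _ _ Qa) := by
      funext i' i
      rw [hdual, Matrix.one_apply]
    rw [h2, Matrix.det_one] at h1
    exact zero_ne_one h1
  · rw [Matrix.det_apply]
    refine totalDegree_finsetSum_le fun s _ => ?_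
    have h1 : (∏ i, M (s i) i).totalDegree ≤ ∑ i, (F i).totalDegree := by
      refine (totalDegree_finset_prod _ _).trans (Finset.sum_le_sum fun i _ => ?_)
      rw [hM]
      exact TV.totalDegree_star _ _
    rcases Int.units_eq_one_or (Equiv.Perm.sign s) with h2 | h2
    · rw [h2, one_smul]
      exact h1
    · rw [h2, Units.neg_smul, one_smul, totalDegree_neg]
      exact h1
  · intro c hne
    rw [heval c] at hne
    rw [Fintype.linearIndependent_iff]
    intro v hv a
    have h1 : Matrix.mulVec (fun i' i : ι => ψ i' (ev c (F i))) v = 0 := by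
      funext i'
      have h2 := congrFun (congrArg g hv) i'
      rw [map_zero, map_sum, Finset.sum_apply] at h2
      show ∑ i : ι, ψ i' (ev c (F i)) * v i = 0
      refine (Finset.sum_congr rfl fun i _ => ?_).trans h2
      rw [map_smul, Pi.smul_apply, smul_eq_mul, mul_comm, hψ]
      rfl
    exact congrFun (Matrix.eq_zero_of_mulVec_eq_zero hne h1) a

/-- The pairs of exponents of total degree at most `D`. -/
def T2 (D : ℕ) : Finset (ℕ × ℕ) := (Finset.range (D + 1)).biUnion Finset.HasAntidiagonal.antidiagonal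

theorem mem_T2 {D : ℕ} {p : ℕ × ℕ} : p ∈ T2 D ↔ p.1 + p.2 ≤ D := by
  unfold T2
  rw [Finset.mem_biUnion]
  constructor
  · rintro ⟨n, hn, hp⟩
    rw [Finset.HasAntidiagonal.mem_antidiagonal] at hp
    rw [Finset.mem_range] at hn
    omega
  · intro h
    exact ⟨p.1 + p.2, Finset.mem_range.2 (by omega), Finset.HasAntidiagonal.mem_antidiagonal.2 rfl⟩

theorem sum_T2 (D : ℕ) : ∑ p ∈ T2 D, (p.1 + p.2) = D * (D + 1) * (D + 2) / 3 := by
  have h1 : ∑ p ∈ T2 D, (p.1 + p.2) = ∑ n ∈ Finset.range (D + 1), n * (n + 1) := by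
    unfold T2
    rw [Finset.sum_biUnion]
    · refine Finset.sum_congr rfl fun n _ => ?_
      rw [Finset.sum_congr rfl fun p hp => Finset.HasAntidiagonal.mem_antidiagonal.1 hp, Finset.sum_const,
        Finset.Nat.card_antidiagonal, smul_eq_mul, mul_comm]
    · intro a _ b _ hab
      refine Finset.disjoint_left.2 fun p hp hq => hab ?_
      rw [Finset.HasAntidiagonal.mem_antidiagonal] at hp hq
      rw [← hp, ← hq]
  rw [h1]
  clear h1
  have h2 : 3 * ∑ n ∈ Finset.range (D + 1), n * (n + 1) = D * (D + 1) * (D + 2) := by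
    induction D with
    | zero => rfl
    | succ D ih =>
      rw [Finset.sum_range_succ, Nat.mul_add, ih]
      ring
  omega

private theorem e2_inj : Function.Injective
    (fun p : ℕ × ℕ => (Finsupp.single (0 : Fin 2) p.1 + Finsupp.single (1 : Fin 2) p.2)) := by
  intro p q h
  have h0 := DFunLike.congr_fun h 0
  have h1 := DFunLike.congr_fun h 1
  simp at h0 h1
  exact Prod.ext h0 h1

private theorem e2_eq (a : Fin 2 →₀ ℕ) :
    Finsupp.single (0 : Fin 2) (a 0) + Finsupp.single (1 : Fin 2) (a 1) = a := by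
  ext i
  fin_cases i <;> simp

/-- No relation of degree at most `D` means that the monomials are linearly independent. -/
theorem rel_iff (D : ℕ) (u w : ℂ) : ¬ Rel D u w ↔
    LinearIndependent Qa fun p : {p // p ∈ T2 D} => u ^ p.1.1 * w ^ p.1.2 := by
  classical
  rw [Fintype.linearIndependent_iff]
  constructor
  · intro h c hc p
    by_contra hp
    apply h
    obtain ⟨P, hP⟩ : ∃ P : MvPolynomial (Fin 2) Qa, P = ∑ p : {p // p ∈ T2 D},
        monomial (Finsupp.single (0 : Fin 2) p.1.1 + Finsupp.single (1 : Fin 2) p.1.2) (c p) :=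
      ⟨_, rfl⟩
    have hcoef : ∀ p : {p // p ∈ T2 D}, coeff (Finsupp.single (0 : Fin 2) p.1.1 +
        Finsupp.single (1 : Fin 2) p.1.2) P = c p := by
      intro p
      rw [hP, coeff_sum, Finset.sum_eq_single p]
      · rw [coeff_monomial, if_pos rfl]
      · intro q _ hq
        rw [coeff_monomial, if_neg]
        intro h1
        exact hq (Subtype.ext (e2_inj h1))
      · intro h1
        exact absurd (Finset.mem_univ p) h1
    refine ⟨P, ?_, ?_, ?_⟩
    · intro h0
      apply hp
      rw [← hcoef p, h0, coeff_zero]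
    · rw [hP]
      refine totalDegree_finsetSum_le fun p _ => (totalDegree_monomial_le _ _).trans ?_
      have := mem_T2.1 p.2
      rw [Finsupp.sum_fintype _ _ (fun _ => rfl), Fin.sum_univ_two]
      simpa using this
    · rw [hP, map_sum, ← hc]
      refine Finset.sum_congr rfl fun p _ => ?_
      rw [aeval_monomial, Finsupp.prod_fintype _ _ (fun _ => pow_zero _), Fin.prod_univ_two,
        Algebra.smul_def]
      simp
  · rintro h ⟨P, hP0, hPd, hP⟩
    apply hP0
    have h1 := h (fun p => coeff (Finsupp.single (0 : Fin 2) p.1.1 +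
      Finsupp.single (1 : Fin 2) p.1.2) P) ?_
    · refine MvPolynomial.ext _ _ fun a => ?_
      rw [coeff_zero]
      by_cases ha : a ∈ P.support
      · have h2 := (le_totalDegree ha).trans hPd
        rw [Finsupp.sum_fintype _ _ (fun _ => rfl), Fin.sum_univ_two] at h2
        have h3 := h1 ⟨(a 0, a 1), mem_T2.2 h2⟩
        dsimp only at h3
        rwa [e2_eq] at h3
      · exact notMem_support_iff.1 ha
    · rw [← hP]
      conv_rhs => rw [← support_sum_monomial_coeff P, map_sum]
      rw [Finset.sum_coe_sort (T2 D) (fun p => coeff (Finsupp.single (0 : Fin 2) p.1 +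
        Finsupp.single (1 : Fin 2) p.2) P • (u ^ p.1 * w ^ p.2))]
      symm
      refine Finset.sum_of_injOn (fun a : Fin 2 →₀ ℕ => (a 0, a 1)) ?_ ?_ ?_ ?_
      · intro a _ b _ hab
        rw [← e2_eq a, ← e2_eq b]
        have h0 := congrArg Prod.fst hab
        have h1 := congrArg Prod.snd hab
        dsimp only at h0 h1
        rw [h0, h1]
      · intro a ha
        have h2 := (le_totalDegree (Finset.mem_coe.1 ha)).trans hPd
        rw [Finsupp.sum_fintype _ _ (fun _ => rfl), Fin.sum_univ_two] at h2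
        exact Finset.mem_coe.2 (mem_T2.2 h2)
      · intro p _ hp
        have : coeff (Finsupp.single (0 : Fin 2) p.1 + Finsupp.single (1 : Fin 2) p.2) P = 0 := by
          by_contra hne
          refine hp ⟨_, Finset.mem_coe.2 (mem_support_iff.2 hne), ?_⟩
          refine Prod.ext ?_ ?_ <;> simp
        rw [this, zero_smul]
      · intro a _
        rw [aeval_monomial, Finsupp.prod_fintype _ _ (fun _ => pow_zero _), Fin.prod_univ_two,
          Algebra.smul_def, e2_eq]
        rfl


/-- The form of a row. -/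
noncomputable def lf {N : ℕ} {σ : Type} (lam : Fin N → ℂ) (s : Fin N → σ) : MvPolynomial σ ℂ :=
  ∑ t, C (lam t) * X (s t)

theorem ev_lf {N : ℕ} {σ : Type} (lam : Fin N → ℂ) (s : Fin N → σ) (c : σ → Qa) :
    ev c (lf lam s) = ∑ t, ((c (s t) : Qa) : ℂ) * lam t := by
  unfold lf
  rw [show ev c (∑ t, C (lam t) * X (s t)) = ∑ t, ev c (C (lam t) * X (s t)) from map_sum _ _ _]
  refine Finset.sum_congr rfl fun t _ => ?_
  rw [TV.ev_mul, TV.ev_C, TV.ev_X, mul_comm]
  rfl

theorem totalDegree_lf {N : ℕ} {σ : Type} (lam : Fin N → ℂ) (s : Fin N → σ) :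
    (lf lam s).totalDegree ≤ 1 := by
  unfold lf
  refine totalDegree_finsetSum_le fun t _ => (totalDegree_mul _ _).trans ?_
  rw [totalDegree_C, zero_add]
  exact (totalDegree_X _).le

private theorem ev_pow' {σ : Type} (c : σ → Qa) (f : MvPolynomial σ ℂ) (n : ℕ) :
    ev c (f ^ n) = ev c f ^ n :=
  map_pow (aeval (R := ℂ) fun s => algebraMap Qa ℂ (c s)) _ _

/-- **Generic pairs.** -/
theorem pair_minor {N D : ℕ} (lam : Fin N → ℂ) (x0 y0 : Fin N → Qa)
    (h : ¬ Rel D (∑ i, (x0 i : ℂ) * lam i) (∑ i, (y0 i : ℂ) * lam i)) :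
    ∃ H : MvPolynomial (Fin N ⊕ Fin N) Qa, H ≠ 0 ∧ H.totalDegree ≤ D * (D + 1) * (D + 2) / 3 ∧
      ∀ x y : Fin N → Qa, eval (Sum.elim x y) H ≠ 0 →
        ¬ Rel D (∑ i, (x i : ℂ) * lam i) (∑ i, (y i : ℂ) * lam i) := by
  classical
  obtain ⟨F, hF⟩ : ∃ F : {p // p ∈ T2 D} → MvPolynomial (Fin N ⊕ Fin N) ℂ,
      F = fun p => lf lam Sum.inl ^ p.1.1 * lf lam Sum.inr ^ p.1.2 := ⟨_, rfl⟩
  have hev : ∀ (x y : Fin N → Qa) (p : {p // p ∈ T2 D}), ev (Sum.elim x y) (F p) =
      (∑ i, (x i : ℂ) * lam i) ^ p.1.1 * (∑ i, (y i : ℂ) * lam i) ^ p.1.2 := by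
    intro x y p
    rw [hF]
    dsimp only
    rw [TV.ev_mul, ev_pow', ev_pow', ev_lf, ev_lf]
    rfl
  have hdeg : ∀ p, (F p).totalDegree ≤ p.1.1 + p.1.2 := by
    intro p
    rw [hF]
    dsimp only
    refine (totalDegree_mul _ _).trans (add_le_add ?_ ?_)
    · refine (totalDegree_pow _ _).trans ?_
      exact (Nat.mul_le_mul_left _ (totalDegree_lf lam _)).trans (by rw [mul_one])
    · refine (totalDegree_pow _ _).trans ?_
      exact (Nat.mul_le_mul_left _ (totalDegree_lf lam _)).trans (by rw [mul_one])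
  obtain ⟨H, h1, h2, h3⟩ := gen_minor F (Sum.elim x0 y0) (by
    rw [rel_iff] at h
    simp only [hev]
    exact h)
  refine ⟨H, h1, ?_, fun x y hxy => ?_⟩
  · rw [← sum_T2, ← Finset.sum_coe_sort (T2 D) (fun p => p.1 + p.2)]
    exact h2.trans (Finset.sum_le_sum fun p _ => hdeg p)
  · have h4 := h3 _ hxy
    rw [rel_iff]
    simp only [hev] at h4
    exact h4

end MP60829e.HF
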