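import Pool.Agent.Lib.MP_60829e_nt.HF.Defs
import Pool.Agent.Lib.MP_60829e_nt.TV.Star

/-! # Generic pairs and sequences without relations of small degree -/

open MvPolynomial Module

namespace MP60829e.HF

open MP60829e.ST (Qa Lsp Lt)
open MP60829e.TV (ev star)

theorem Rel.symm {D : ℕ} {u w : ℂ} (h : Rel D u w) : Rel D w u := by
  obtain ⟨P, hP0, hPD, hP⟩ := h
  refine ⟨rename (Equiv.swap (0 : Fin 2) 1) P, ?_, ?_, ?_⟩
  · intro h0
    apply hP0
    exact rename_injective _ (Equiv.injective _) (h0.trans (map_zero _).symm)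
  · exact (totalDegree_rename_le _ _).trans hPD
  · rw [aeval_rename, ← hP]
    congr 1
    congr 1
    funext i
    fin_cases i
    · simp
    · simp

theorem Rel.mono {D D' : ℕ} {u w : ℂ} (h : Rel D u w) (hD : D ≤ D') : Rel D' u w := by
  obtain ⟨P, hP0, hPD, hP⟩ := h
  exact ⟨P, hP0, hPD.trans hD, hP⟩

/-- the exponents of the monomials of degree at most `D` in two variables -/
def Idx (D : ℕ) : Finset (ℕ × ℕ) :=
  (Finset.range (D + 1) ×ˢ Finset.range (D + 1)).filter fun p => p.1 + p.2 ≤ D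

theorem mem_Idx {D : ℕ} {p : ℕ × ℕ} : p ∈ Idx D ↔ p.1 + p.2 ≤ D := by
  unfold Idx
  rw [Finset.mem_filter, Finset.mem_product, Finset.mem_range, Finset.mem_range]
  omega

theorem sum_Idx_le (D : ℕ) : ∑ p ∈ Idx D, p.2 ≤ D * (D + 1) ^ 2 := by
  have h1 : (Idx D).card ≤ (D + 1) ^ 2 := by
    refine (Finset.card_filter_le _ _).trans (le_of_eq ?_)
    rw [Finset.card_product, Finset.card_range, sq]
  calc ∑ p ∈ Idx D, p.2 ≤ ∑ _p ∈ Idx D, D := Finset.sum_le_sum fun p hp => by
        have := mem_Idx.1 hp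
        omega
    _ = (Idx D).card * D := by rw [Finset.sum_const, smul_eq_mul]
    _ ≤ (D + 1) ^ 2 * D := Nat.mul_le_mul_right _ h1
    _ = D * (D + 1) ^ 2 := by ring

/-- the exponent as a finitely supported function -/
noncomputable def fx (p : ℕ × ℕ) : Fin 2 →₀ ℕ := Finsupp.equivFunOnFinite.symm ![p.1, p.2]

theorem fx_zero (p : ℕ × ℕ) : fx p 0 = p.1 := rfl

theorem fx_one (p : ℕ × ℕ) : fx p 1 = p.2 := rfl

theorem fx_injective : Function.Injective fx := by
  intro p q h
  exact Prod.ext (by rw [← fx_zero, ← fx_zero, h]) (by rw [← fx_one, ← fx_one, h])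

theorem not_rel_iff {D : ℕ} {u w : ℂ} : ¬ Rel D u w ↔
    LinearIndependent Qa fun p : {p // p ∈ Idx D} => u ^ p.1.1 * w ^ p.1.2 := by
  classical
  rw [Fintype.linearIndependent_iff]
  constructor
  · intro h c hc p
    by_contra hp
    apply h
    obtain ⟨P, hP⟩ : ∃ P : MvPolynomial (Fin 2) Qa, P = ∑ p : {p // p ∈ Idx D},
        monomial (fx p.1) (c p) := ⟨_, rfl⟩
    refine ⟨P, ?_, ?_, ?_⟩
    · intro h0
      apply hp
      have h1 : coeff (fx p.1) P = c p := by
        rw [hP, coeff_sum, Finset.sum_eq_single p]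
        · rw [coeff_monomial, if_pos rfl]
        · intro q _ hq
          rw [coeff_monomial, if_neg]
          intro h2
          exact hq (Subtype.ext (fx_injective h2))
        · intro h2
          exact absurd (Finset.mem_univ _) h2
      rw [← h1, h0, coeff_zero]
    · rw [hP]
      refine totalDegree_finsetSum_le fun q _ => ?_
      refine (totalDegree_monomial_le _ _).trans ?_
      rw [Finsupp.sum_fintype _ _ (fun _ => rfl), Fin.sum_univ_two, fx_zero, fx_one]
      exact mem_Idx.1 q.2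
    · rw [hP, map_sum, ← hc]
      refine Finset.sum_congr rfl fun q _ => ?_
      rw [aeval_monomial, Algebra.smul_def]
      congr 1
      rw [Finsupp.prod_fintype _ _ (fun _ => pow_zero _), Fin.prod_univ_two]
      rfl
  · rintro h ⟨P, hP0, hPD, hP⟩
    apply hP0
    have h1 : ∑ p : {p // p ∈ Idx D}, coeff (fx p.1) P • (u ^ p.1.1 * w ^ p.1.2) = 0 := by
      rw [← hP, aeval_def, eval₂_eq']
      rw [Finset.sum_coe_sort (Idx D) (fun p => coeff (fx p) P • (u ^ p.1 * w ^ p.2))]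
      symm
      refine Finset.sum_bij_ne_zero (fun a _ _ => (a 0, a 1)) ?_ ?_ ?_ ?_
      · intro a ha _
        rw [mem_Idx]
        refine le_trans (le_of_eq ?_) ((le_totalDegree ha).trans hPD)
        rw [Finsupp.sum_fintype _ _ (fun _ => rfl), Fin.sum_univ_two]
      · intro a _ _ b _ _ hab
        ext i
        fin_cases i
        · exact congrArg Prod.fst hab
        · exact congrArg Prod.snd hab
      · intro p hp hne
        have h2 : fx p ∈ P.support := by
          rw [MvPolynomial.mem_support_iff]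
          intro h3
          apply hne
          rw [h3, zero_smul]
        refine ⟨fx p, h2, ?_, rfl⟩
        intro h3
        apply hne
        rw [Algebra.smul_def]
        rw [Fin.prod_univ_two] at h3
        exact h3
      · intro a ha _
        rw [Fin.prod_univ_two, Algebra.smul_def]
        have h2 : fx (a 0, a 1) = a := by
          ext i
          fin_cases i
          · rfl
          · rfl
        rw [h2]
        rfl
    have h2 := h (fun p => coeff (fx p.1) P) h1
    refine MvPolynomial.ext _ _ fun a => ?_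
    rw [coeff_zero]
    by_cases ha : a ∈ P.support
    · have h3 : a 0 + a 1 ≤ D := by
        refine le_trans (le_of_eq ?_) ((le_totalDegree ha).trans hPD)
        rw [Finsupp.sum_fintype _ _ (fun _ => rfl), Fin.sum_univ_two]
      have h4 := h2 ⟨(a 0, a 1), mem_Idx.2 h3⟩
      have h5 : fx (a 0, a 1) = a := by
        ext i
        fin_cases i
        · rfl
        · rfl
      simp only [h5] at h4
      exact h4
    · exact MvPolynomial.notMem_support_iff.1 ha

/-- A polynomial over the algebraic numbers is nonzero at the rational points outside a hypersurface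
over the rational numbers which is not of larger degree. -/
private theorem exists_rat {m : ℕ} (f : MvPolynomial (Fin m) Qa) (hf : f ≠ 0) :
    ∃ g : MvPolynomial (Fin m) ℚ, g ≠ 0 ∧ g.totalDegree ≤ f.totalDegree ∧
      ∀ a : Fin m → ℚ, eval a g ≠ 0 → eval (fun s => ((a s : ℚ) : Qa)) f ≠ 0 := by
  classical
  obtain ⟨d, hd⟩ := MvPolynomial.ne_zero_iff.1 hf
  obtain ⟨φ, hφ⟩ : ∃ φ : Module.Dual ℚ Qa, φ (coeff d f) ≠ 0 := by
    by_contra hcon
    push Not at hcon
    exact hd ((Module.forall_dual_apply_eq_zero_iff ℚ (coeff d f)).1 hcon)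
  refine ⟨∑ e ∈ f.support, monomial e (φ (coeff e f)), ?_, ?_, fun a ha => ?_⟩
  · rw [MvPolynomial.ne_zero_iff]
    refine ⟨d, ?_⟩
    rw [coeff_sum, Finset.sum_eq_single d]
    · rwa [coeff_monomial, if_pos rfl]
    · intro e _ he
      rw [coeff_monomial, if_neg he]
    · intro h
      rw [MvPolynomial.notMem_support_iff] at h
      exact absurd h hd
  · exact totalDegree_finsetSum_le fun e he =>
      (totalDegree_monomial_le e _).trans (le_totalDegree he)
  · intro h0
    apply ha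
    rw [map_sum]
    have h1 : φ (eval (fun s => ((a s : ℚ) : Qa)) f) =
        ∑ e ∈ f.support, eval a (monomial e (φ (coeff e f))) := by
      rw [eval_eq, map_sum]
      refine Finset.sum_congr rfl fun e _ => ?_
      rw [eval_monomial, Finsupp.prod]
      have h2 : coeff e f * ∏ i ∈ e.support, ((a i : ℚ) : Qa) ^ e i =
          (∏ i ∈ e.support, a i ^ e i) • coeff e f := by
        rw [Algebra.smul_def, mul_comm, map_prod]
        congr 1
        refine Finset.prod_congr rfl fun i _ => ?_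
        rw [map_pow]
        rfl
      rw [h2, map_smul, smul_eq_mul, mul_comm]
    rw [← h1, h0, map_zero]

/-- **One generic row.** If some rational combination of the `lam i` satisfies no relation of degree
`≤ D` with `u`, so do all the combinations outside a hypersurface. -/
theorem row_poly {N D : ℕ} (lam : Fin N → ℂ) (u : ℂ)
    (hex : ∃ y : Fin N → ℚ, ¬ Rel D u (∑ i, (y i : ℂ) * lam i)) :
    ∃ F : MvPolynomial (Fin N) ℚ, F ≠ 0 ∧ F.totalDegree ≤ D * (D + 1) ^ 2 ∧
      ∀ y : Fin N → ℚ, eval y F ≠ 0 → ¬ Rel D u (∑ i, (y i : ℂ) * lam i) := by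
  classical
  obtain ⟨y0, hy0⟩ := hex
  rw [not_rel_iff] at hy0
  obtain ⟨w, hw⟩ : ∃ w : (Fin N → ℚ) → ℂ, w = fun y => ∑ i, (y i : ℂ) * lam i := ⟨_, rfl⟩
  have hw' : ∀ y, ∑ i, (y i : ℂ) * lam i = w y := fun y => by rw [hw]
  simp only [hw'] at hy0 ⊢
  have hinj : Function.Injective (Fintype.linearCombination Qa
      (fun p : {p // p ∈ Idx D} => u ^ p.1.1 * w y0 ^ p.1.2)) := by
    rw [← LinearMap.ker_eq_bot, LinearMap.ker_eq_bot']
    intro c hc
    rw [Fintype.linearIndependent_iff] at hy0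
    funext a
    exact hy0 c hc a
  obtain ⟨g, hg⟩ := LinearMap.exists_leftInverse_of_injective _ (LinearMap.ker_eq_bot.2 hinj)
  obtain ⟨ψ, hψ⟩ : ∃ ψ : {p // p ∈ Idx D} → (ℂ →ₗ[Qa] Qa),
      ψ = fun a' => (LinearMap.proj a').comp g := ⟨_, rfl⟩
  have hdual : ∀ a' a : {p // p ∈ Idx D},
      ψ a' (u ^ a.1.1 * w y0 ^ a.1.2) = if a' = a then 1 else 0 := by
    intro a' a
    have h1 := congrFun (LinearMap.congr_fun hg (Pi.single a 1)) a'
    rw [LinearMap.comp_apply, Fintype.linearCombination_apply_single, one_smul,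
      LinearMap.id_apply, Pi.single_apply] at h1
    rw [hψ]
    exact h1
  obtain ⟨L, hL⟩ : ∃ L : MvPolynomial (Fin N) ℂ, L = ∑ i, C (lam i) * X i := ⟨_, rfl⟩
  have hLdeg : L.totalDegree ≤ 1 := by
    rw [hL]
    refine totalDegree_finsetSum_le fun i _ => ?_
    refine (totalDegree_mul _ _).trans ?_
    rw [totalDegree_C, totalDegree_X]
  have hevL : ∀ y : Fin N → ℚ, ev (fun s => ((y s : ℚ) : Qa)) L = w y := by
    intro y
    rw [hL, hw]
    have h1 : ev (fun s => ((y s : ℚ) : Qa)) (∑ i, C (lam i) * X i : MvPolynomial (Fin N) ℂ) =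
        ∑ i, ev (fun s => ((y s : ℚ) : Qa)) (C (lam i) * X i : MvPolynomial (Fin N) ℂ) :=
      map_sum _ _ _
    rw [h1]
    refine Finset.sum_congr rfl fun i _ => ?_
    rw [mul_comm ((y i : ℂ)) (lam i)]
    change aeval (R := ℂ) (fun s => algebraMap Qa ℂ ((y s : ℚ) : Qa))
      (C (lam i) * X i : MvPolynomial (Fin N) ℂ) = _
    rw [map_mul, aeval_X, aeval_C]
    congr 1
  obtain ⟨F, hF⟩ : ∃ F : Matrix {p // p ∈ Idx D} {p // p ∈ Idx D} (MvPolynomial (Fin N) Qa),
      F = fun a' a => star (ψ a') (C (u ^ a.1.1) * L ^ a.1.2) := ⟨_, rfl⟩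
  have heval : ∀ y : Fin N → ℚ, eval (fun s => ((y s : ℚ) : Qa)) F.det =
      Matrix.det (fun a' a : {p // p ∈ Idx D} => ψ a' (u ^ a.1.1 * w y ^ a.1.2)) := by
    intro y
    rw [RingHom.map_det]
    congr 1
    funext a' a
    rw [RingHom.mapMatrix_apply, Matrix.map_apply, hF]
    dsimp only
    rw [TV.eval_star]
    congr 1
    have h1 : ∀ f : MvPolynomial (Fin N) ℂ, ev (fun s => ((y s : ℚ) : Qa)) f =
        aeval (R := ℂ) (fun s => algebraMap Qa ℂ ((y s : ℚ) : Qa)) f := fun f => rfl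
    have h2 : aeval (R := ℂ) (fun s => algebraMap Qa ℂ ((y s : ℚ) : Qa)) (L ^ a.1.2) =
        w y ^ a.1.2 := by
      rw [map_pow, ← h1 L, hevL]
    rw [h1, map_mul, h2, aeval_C]
    rfl
  have hdet : F.det ≠ 0 := by
    intro h0
    have h1 := heval y0
    rw [h0, map_zero] at h1
    have h2 : (fun a' a : {p // p ∈ Idx D} =>
        ψ a' (u ^ a.1.1 * w y0 ^ a.1.2)) = (1 : Matrix _ _ Qa) := by
      funext a' a
      rw [hdual, Matrix.one_apply]
    rw [h2, Matrix.det_one] at h1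
    exact zero_ne_one h1
  have hdeg : F.det.totalDegree ≤ D * (D + 1) ^ 2 := by
    refine le_trans ?_ (sum_Idx_le D)
    rw [← Finset.sum_coe_sort (Idx D) (fun p => p.2), Matrix.det_apply]
    refine totalDegree_finsetSum_le fun σ _ => ?_
    have h1 : (∏ i, F (σ i) i).totalDegree ≤ ∑ i : {p // p ∈ Idx D}, i.1.2 := by
      refine (totalDegree_finsetProd _ _).trans (Finset.sum_le_sum fun i _ => ?_)
      rw [hF]
      dsimp only
      refine (TV.totalDegree_star _ _).trans ?_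
      refine (totalDegree_mul _ _).trans ?_
      rw [totalDegree_C, zero_add]
      refine (totalDegree_pow _ _).trans ?_
      calc i.1.2 * L.totalDegree ≤ i.1.2 * 1 := Nat.mul_le_mul_left _ hLdeg
        _ = i.1.2 := mul_one _
    rcases Int.units_eq_one_or (Equiv.Perm.sign σ) with h2 | h2
    · rw [h2, one_smul]
      exact h1
    · rw [h2, Units.neg_smul, one_smul, totalDegree_neg]
      exact h1
  obtain ⟨G, hG0, hGd, hG⟩ := exists_rat F.det hdet
  refine ⟨G, hG0, hGd.trans hdeg, fun y hy => ?_⟩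
  have h1 := hG y hy
  rw [heval y] at h1
  rw [not_rel_iff, Fintype.linearIndependent_iff]
  intro c hc a
  have h2 : Matrix.mulVec (fun a' a : {p // p ∈ Idx D} =>
      ψ a' (u ^ a.1.1 * w y ^ a.1.2)) c = 0 := by
    funext a'
    have h3 := congrFun (congrArg g hc) a'
    rw [map_zero, map_sum, Finset.sum_apply] at h3
    show ∑ a : {p // p ∈ Idx D}, ψ a' (u ^ a.1.1 * w y ^ a.1.2) * c a = 0
    refine (Finset.sum_congr rfl fun a _ => ?_).trans h3
    rw [map_smul, Pi.smul_apply, smul_eq_mul, mul_comm, hψ]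
    rfl
  exact congrFun (Matrix.eq_zero_of_mulVec_eq_zero h1 h2) a

/-- **Sequences of rows.** The hypersurface of the row `b` depends on the previous rows. -/
theorem pairs_seq {lam : ℕ → ℂ} (N D : ℕ → ℕ) (hN : ∀ a b, a ≤ b → N a ≤ N b)
    (hex : ∀ b, ∃ x y : Fin (N b) → ℚ,
      ¬ Rel (D b) (∑ i, (x i : ℂ) * lam i) (∑ i, (y i : ℂ) * lam i)) :
    ∃ H : (b : ℕ) → (Fin b → ℕ → ℚ) → MvPolynomial (Fin (N b)) ℚ,
      (∀ b y, H b y ≠ 0 ∧
        (H b y).totalDegree ≤ ∑ a ∈ Finset.range (b + 1), D a * (D a + 1) ^ 2) ∧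
      ∀ x : ℕ → ℕ → ℚ, (∀ b, eval (fun t : Fin (N b) => x b t) (H b fun i => x i) ≠ 0) →
        ∀ a b, a < b → ¬ Rel (D a) (∑ t : Fin (N a), (x a t : ℂ) * lam t)
          (∑ t : Fin (N b), (x b t : ℂ) * lam t) := by
  classical
  -- the polynomial of a previous row
  have h1 : ∀ (b : ℕ) (y : Fin b → ℕ → ℚ) (a : Fin b),
      ∃ F : MvPolynomial (Fin (N b)) ℚ, F ≠ 0 ∧ F.totalDegree ≤ D a * (D a + 1) ^ 2 ∧
        ((∃ z : Fin (N b) → ℚ, ¬ Rel (D a) (∑ t : Fin (N a), (y a t : ℂ) * lam t)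
            (∑ i, (z i : ℂ) * lam i)) →
          ∀ z : Fin (N b) → ℚ, eval z F ≠ 0 →
            ¬ Rel (D a) (∑ t : Fin (N a), (y a t : ℂ) * lam t) (∑ i, (z i : ℂ) * lam i)) := by
    intro b y a
    by_cases h : ∃ z : Fin (N b) → ℚ, ¬ Rel (D a) (∑ t : Fin (N a), (y a t : ℂ) * lam t)
        (∑ i, (z i : ℂ) * lam i)
    · obtain ⟨F, h2, h3, h4⟩ := row_poly (fun i : Fin (N b) => lam i) _ h
      exact ⟨F, h2, h3, fun _ => h4⟩
    · refine ⟨1, one_ne_zero, ?_, fun h' => absurd h' h⟩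
      rw [totalDegree_one]
      exact Nat.zero_le _
  choose F hF0 hFd hF using h1
  -- the polynomial of the row itself
  have h2 : ∀ b : ℕ, ∃ G : MvPolynomial (Fin (N b)) ℚ, G ≠ 0 ∧
      G.totalDegree ≤ D b * (D b + 1) ^ 2 ∧ ∀ x : Fin (N b) → ℚ, eval x G ≠ 0 →
        ∃ y : Fin (N b) → ℚ, ¬ Rel (D b) (∑ i, (x i : ℂ) * lam i)
          (∑ i, (y i : ℂ) * lam i) := by
    intro b
    obtain ⟨x0, y0, h3⟩ := hex b
    obtain ⟨G, h4, h5, h6⟩ := row_poly (D := D b) (fun i : Fin (N b) => lam i)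
      (∑ i, (y0 i : ℂ) * lam i) ⟨x0, fun h => h3 h.symm⟩
    exact ⟨G, h4, h5, fun x hx => ⟨y0, fun h => h6 x hx h.symm⟩⟩
  choose G hG0 hGd hG using h2
  refine ⟨fun b y => G b * ∏ a : Fin b, F b y a, fun b y => ⟨?_, ?_⟩, ?_⟩
  · exact mul_ne_zero (hG0 b) (Finset.prod_ne_zero_iff.2 fun a _ => hF0 b y a)
  · refine (totalDegree_mul _ _).trans ?_
    rw [Finset.sum_range_succ, add_comm (G b).totalDegree, Finset.sum_range]
    refine add_le_add ((totalDegree_finsetProd _ _).trans ?_) (hGd b)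
    exact Finset.sum_le_sum fun a _ => hFd b y a
  · intro x hx a b hab
    have h3 := hx b
    rw [map_mul, map_prod] at h3
    have h4 := Finset.prod_ne_zero_iff.1 (right_ne_zero_of_mul h3) ⟨a, hab⟩ (Finset.mem_univ _)
    refine hF b (fun i => x i) ⟨a, hab⟩ ?_ (fun t : Fin (N b) => x b t) h4
    have h5 := hx a
    rw [map_mul] at h5
    obtain ⟨y, hy⟩ := hG a (fun t : Fin (N a) => x a t) (left_ne_zero_of_mul h5)
    have hle := hN a b hab.le
    refine ⟨fun i => if h : (i : ℕ) < N a then y ⟨i, h⟩ else 0, ?_⟩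
    have h6 : ∑ i : Fin (N b), (((if h : (i : ℕ) < N a then y ⟨i, h⟩ else 0 : ℚ)) : ℂ) *
        lam i = ∑ i : Fin (N a), (y i : ℂ) * lam i := by
      have h7 : ∀ (n : ℕ), ∑ i : Fin n, (((if h : (i : ℕ) < N a then y ⟨i, h⟩ else 0 : ℚ)) : ℂ) *
          lam i = ∑ i ∈ Finset.range n,
            (((if h : i < N a then y ⟨i, h⟩ else 0 : ℚ)) : ℂ) * lam i := by
        intro n
        rw [Finset.sum_range]
      have h8 : ∑ i : Fin (N a), (y i : ℂ) * lam i =
          ∑ i : Fin (N a), (((if h : (i : ℕ) < N a then y ⟨i, h⟩ else 0 : ℚ)) : ℂ) * lam i := by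
        refine Finset.sum_congr rfl fun i _ => ?_
        rw [dif_pos i.2]
      rw [h8, h7, h7]
      refine (Finset.sum_subset (Finset.range_subset_range.2 hle) fun i _ hi => ?_).symm
      rw [dif_neg fun h => hi (Finset.mem_range.2 h), Rat.cast_zero, zero_mul]
    rw [h6]
    exact hy

/-- There is a sequence of natural numbers outside the hypersurfaces. -/
private theorem exists_seqN {j d : ℕ → ℕ}
    (H : (b : ℕ) → (Fin b → ℕ → ℚ) → MvPolynomial (Fin (j b)) ℚ)
    (hH : ∀ b y, H b y ≠ 0) (hd : ∀ b y, (H b y).totalDegree ≤ d b) :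
    ∃ x : ℕ → ℕ → ℕ, (∀ b t, x b t ≤ d b) ∧
      ∀ b, eval (fun t : Fin (j b) => (x b t : ℚ)) (H b fun i t => (x i t : ℚ)) ≠ 0 := by
  classical
  have h1 : ∀ (b : ℕ) (y : Fin b → ℕ → ℕ), ∃ x : ℕ → ℕ, (∀ t, x t ≤ d b) ∧
      eval (fun t : Fin (j b) => (x t : ℚ)) (H b fun i t => (y i t : ℚ)) ≠ 0 := by
    intro b y
    by_contra hcon
    push Not at hcon
    refine hH b (fun i t => (y i t : ℚ)) (eq_zero_of_eval_zero_at_prod_finset _
      (fun _ => (Finset.range (d b + 1)).image (Nat.cast : ℕ → ℚ)) (fun i => ?_) fun x hx => ?_)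
    · rw [Finset.card_image_of_injective _ Nat.cast_injective, Finset.card_range]
      exact Nat.lt_succ_of_le ((degreeOf_le_totalDegree _ i).trans (hd b _))
    · have h2 : ∀ i, ∃ n : ℕ, n ≤ d b ∧ (n : ℚ) = x i := by
        intro i
        obtain ⟨n, hn, hn'⟩ := Finset.mem_image.1 (hx i)
        exact ⟨n, Nat.lt_succ_iff.1 (Finset.mem_range.1 hn), hn'⟩
      choose n hn hn' using h2
      rw [← hcon (fun t => if h : t < j b then n ⟨t, h⟩ else 0) fun t => ?_]
      · congr 1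
        congr 1
        funext t
        rw [dif_pos t.2]
        exact (hn' t).symm
      · split_ifs with h
        · exact hn _
        · exact Nat.zero_le _
  choose f hf1 hf using h1
  let x : ℕ → ℕ → ℕ := fun n =>
    Nat.strongRec (motive := fun _ => ℕ → ℕ) (fun b ih => f b fun i => ih i i.2) n
  have hx : ∀ b, x b = f b fun i => x i := by
    intro b
    show Nat.strongRec (motive := fun _ => ℕ → ℕ) (fun b ih => f b fun i => ih i i.2) b = _
    rw [Nat.strongRec_eq]
  refine ⟨x, fun b t => ?_, fun b => ?_⟩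
  · rw [hx b]
    exact hf1 b _ t
  · have h2 := hf b fun i => x i
    rw [← hx b] at h2
    exact h2

/-- **Sequences, natural coefficients.** -/
theorem pairs_nat {lam : ℕ → ℂ} (N D : ℕ → ℕ) (hN : ∀ a b, a ≤ b → N a ≤ N b)
    (hex : ∀ b, ∃ x y : Fin (N b) → ℚ,
      ¬ Rel (D b) (∑ i, (x i : ℂ) * lam i) (∑ i, (y i : ℂ) * lam i)) :
    ∃ x : ℕ → ℕ → ℕ, (∀ b t, x b t ≤ ∑ a ∈ Finset.range (b + 1), D a * (D a + 1) ^ 2) ∧
      ∀ a b, a < b → ¬ Rel (D a) (∑ t ∈ Finset.range (N a), (x a t : ℂ) * lam t)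
        (∑ t ∈ Finset.range (N b), (x b t : ℂ) * lam t) := by
  obtain ⟨H, hH, hH'⟩ := pairs_seq N D hN hex
  obtain ⟨x, hx1, hx⟩ := exists_seqN (j := N)
    (d := fun b => ∑ a ∈ Finset.range (b + 1), D a * (D a + 1) ^ 2) H (fun b y => (hH b y).1)
    fun b y => (hH b y).2
  refine ⟨x, hx1, fun a b hab => ?_⟩
  have h1 := hH' (fun b t => (x b t : ℚ)) hx a b hab
  simp only [Rat.cast_natCast] at h1
  rw [Finset.sum_range, Finset.sum_range]
  exact h1

/-- **The primes.** Natural numbers with prime factors among the first `2 b + 2` primes, with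
exponents of size at most `(b + 1) ^ 7`, and no relation of degree `< (i + 1) ^ 2` between the
logarithms of the numbers `i < j`. -/
theorem pairs_primes (hex : ∀ b, ∃ x y : Fin (2 * b + 2) → ℚ,
      ¬ Rel ((b + 1) ^ 2 - 1) (∑ i : Fin (2 * b + 2), (x i : ℂ) * HD.logP i)
        (∑ i : Fin (2 * b + 2), (y i : ℂ) * HD.logP i)) :
    ∃ a : ℕ → ℕ, (∀ b, ∃ x : ℕ → ℕ, (∀ t, x t ≤ (b + 1) ^ 7) ∧
        a b = ∏ t ∈ Finset.range (2 * b + 2), Nat.nth Nat.Prime t ^ x t) ∧
      ∀ i j, i < j → ¬ Rel ((i + 1) ^ 2 - 1) (Complex.log (a i)) (Complex.log (a j)) := by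
  obtain ⟨x, hx1, hx⟩ := pairs_nat (lam := HD.logP) (fun b => 2 * b + 2)
    (fun b => (b + 1) ^ 2 - 1) (fun a b hab => by omega) hex
  have hsum : ∀ b, ∑ a ∈ Finset.range (b + 1), ((a + 1) ^ 2 - 1) * ((a + 1) ^ 2 - 1 + 1) ^ 2 ≤
      (b + 1) ^ 7 := by
    intro b
    have h1 : ∀ a ∈ Finset.range (b + 1), ((a + 1) ^ 2 - 1) * ((a + 1) ^ 2 - 1 + 1) ^ 2 ≤
        (b + 1) ^ 6 := by
      intro a ha
      have h2 : a + 1 ≤ b + 1 := by
        have := Finset.mem_range.1 ha
        omega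
      have h3 : 1 ≤ (a + 1) ^ 2 := Nat.one_le_pow _ _ (by omega)
      rw [Nat.sub_add_cancel h3]
      calc ((a + 1) ^ 2 - 1) * ((a + 1) ^ 2) ^ 2 ≤ (a + 1) ^ 2 * ((a + 1) ^ 2) ^ 2 :=
            Nat.mul_le_mul_right _ (Nat.sub_le _ _)
        _ = (a + 1) ^ 6 := by ring
        _ ≤ (b + 1) ^ 6 := Nat.pow_le_pow_left h2 6
    refine (Finset.sum_le_sum h1).trans (le_of_eq ?_)
    rw [Finset.sum_const, Finset.card_range, smul_eq_mul]
    ring
  refine ⟨fun b => ∏ t ∈ Finset.range (2 * b + 2), Nat.nth Nat.Prime t ^ x b t,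
    fun b => ⟨x b, fun t => (hx1 b t).trans (hsum b), rfl⟩, fun i j hij => ?_⟩
  have hlog : ∀ b, Complex.log ((∏ t ∈ Finset.range (2 * b + 2),
      Nat.nth Nat.Prime t ^ x b t : ℕ) : ℂ) =
      ∑ t ∈ Finset.range (2 * b + 2), (x b t : ℂ) * HD.logP t := by
    intro b
    rw [← Complex.natCast_log, HD.log_prod, Finset.sum_range]
  have h2 := hx i j hij
  rw [← hlog i, ← hlog j] at h2
  exact h2

end MP60829e.HF
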