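import Pool.Agent.Lib.MP_60829e_nt.HF.GrowG
import Pool.Agent.Lib.MP_60829e_nt.HF.PairM
import Pool.Agent.Lib.MP_60829e_nt.HF.SeqP

/-! # Hilbert functions of logarithms: the final statements -/

open MvPolynomial Module

namespace MP60829e.HF

open MP60829e.ST (Qa Lsp Lt)

theorem baker_fin {N : ℕ} (lam : Fin N → ℂ) (halg : ∀ i, IsAlgebraic ℚ (Complex.exp (lam i)))
    (hli : LinearIndependent ℚ lam) : LinearIndependent Qa lam := by
  classical
  rw [Fintype.linearIndependent_iff]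
  intro c hc i
  have h1 := Pool.Agent.Lib.MP_60829e_nt.Bk.baker_hom lam halg hli (fun i => (c i : ℂ))
    (fun i => mem_algebraicClosure_iff.1 (c i).2) (by
      rw [← hc]
      refine Finset.sum_congr rfl fun i _ => ?_
      rw [Algebra.smul_def, mul_comm]
      rfl) i
  exact Subtype.ext h1

theorem baker_one_fin {N : ℕ} (lam : Fin N → ℂ) (halg : ∀ i, IsAlgebraic ℚ (Complex.exp (lam i)))
    (hli : LinearIndependent ℚ lam) :
    LinearIndependent Qa (Sum.elim (fun _ : Unit => (1 : ℂ)) lam) := by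
  refine LinearIndependent.sum_type (LinearIndependent.of_subsingleton () one_ne_zero)
    (baker_fin lam halg hli) ?_
  rw [Submodule.disjoint_def]
  intro x hx hx'
  rw [Set.range_const, Submodule.mem_span_singleton] at hx
  obtain ⟨c, rfl⟩ := hx
  by_contra hne
  have hc : c ≠ 0 := by
    rintro rfl
    exact hne (zero_smul _ _)
  have h1 : (1 : ℂ) ∈ Submodule.span Qa (Set.range lam) := by
    have := Submodule.smul_mem _ c⁻¹ hx'
    rwa [smul_smul, inv_mul_cancel₀ hc, one_smul] at this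
  have h2 : (1 : ℂ) ∈ Lsp := Submodule.span_mono (by
    rintro _ ⟨i, rfl⟩
    exact halg i) h1
  exact Pool.Agent.Lib.MP_60829e_nt.ML.one_notMem h2

theorem le_finrank_Sp {N : ℕ} (lam : Fin N → ℂ) (halg : ∀ i, IsAlgebraic ℚ (Complex.exp (lam i)))
    (hli : LinearIndependent ℚ lam) : N + 1 ≤ finrank Qa ↥(Sp lam) := by
  have h1 := baker_one_fin lam halg hli
  have h2 := finrank_span_eq_card h1
  rw [Fintype.card_sum, Fintype.card_unit, Fintype.card_fin] at h2
  have h3 : Submodule.span Qa (Set.range (Sum.elim (fun _ : Unit => (1 : ℂ)) lam)) = Sp lam := by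
    unfold Sp
    congr 1
    rw [Set.Sum.elim_range, Set.range_const]
  rw [h3] at h2
  omega

theorem growV {N : ℕ} (hN : 0 < N) (lam : Fin N → ℂ) (hlam : LinearIndependent Qa lam)
    (hlog : ∀ i, lam i ∈ Lsp) (W : Submodule Qa ℂ) [FiniteDimensional Qa W]
    (hW : N ≤ 2 * finrank Qa W + 1) :
    finrank Qa W + N ^ 2 / 4 ≤ finrank Qa ↥(W * Submodule.span Qa (Set.range lam)) := by
  rcases growG lam hlam hlog W (d := N / 2) (Nat.div_le_self _ _) (by omega) with h | h
  · rw [half_mul, ← sq] at h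
    exact h
  · omega

theorem fin_V {N : ℕ} (lam : Fin N → ℂ) (m : ℕ) :
    FiniteDimensional Qa ↥(Submodule.span Qa (Set.range lam) ^ m) :=
  Module.Finite.iff_fg.2 ((Module.Finite.iff_fg.1 (FiniteDimensional.span_of_finite Qa
    (Set.finite_range lam))).pow m)

theorem pow_hom {N : ℕ} (hN : 0 < N) (lam : Fin N → ℂ) (hlam : LinearIndependent Qa lam)
    (hlog : ∀ i, lam i ∈ Lsp) (m : ℕ) :
    N + m * (N ^ 2 / 4) ≤ finrank Qa ↥(Submodule.span Qa (Set.range lam) ^ (m + 1)) := by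
  induction m with
  | zero => rw [zero_add, pow_one, finrank_span_eq_card hlam, Fintype.card_fin]; omega
  | succ m ih =>
    have := fin_V lam (m + 1)
    have h1 := growV hN lam hlam hlog (Submodule.span Qa (Set.range lam) ^ (m + 1)) (by
      have := Nat.zero_le (m * (N ^ 2 / 4))
      omega)
    rw [← pow_succ] at h1
    have h2 : (m + 1) * (N ^ 2 / 4) = m * (N ^ 2 / 4) + N ^ 2 / 4 := by ring
    omega

theorem pow_inhom {N : ℕ} (hN : 0 < N) (lam : Fin N → ℂ)
    (halg : ∀ i, IsAlgebraic ℚ (Complex.exp (lam i))) (hli : LinearIndependent ℚ lam) (m : ℕ) :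
    N + 1 + m * (N ^ 2 / 4) ≤ finrank Qa ↥(Sp lam ^ (m + 1)) := by
  have hlam := baker_fin lam halg hli
  have hlog : ∀ i, lam i ∈ Lsp := fun i => Submodule.subset_span (halg i)
  induction m with
  | zero =>
    have := le_finrank_Sp lam halg hli
    rw [zero_add, pow_one]
    omega
  | succ m ih =>
    have := fin_pow lam (m + 1)
    have := fin_pow lam (m + 1 + 1)
    have h1 := growV hN lam hlam hlog (Sp lam ^ (m + 1)) (by
      have := Nat.zero_le (m * (N ^ 2 / 4))
      omega)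
    have h3 : Sp lam ^ (m + 1) * Submodule.span Qa (Set.range lam) ≤ Sp lam ^ (m + 1 + 1) := by
      rw [pow_succ (Sp lam) (m + 1)]
      exact mul_le_mul' le_rfl (Submodule.span_mono Set.subset_union_right)
    have h4 := Submodule.finrank_mono h3
    have h2 : (m + 1) * (N ^ 2 / 4) = m * (N ^ 2 / 4) + N ^ 2 / 4 := by ring
    omega

/-- the span of the monomials of degree `m` -/
noncomputable def Mh {N : ℕ} (lam : Fin N → ℂ) (m : ℕ) : Submodule Qa ℂ :=
  Submodule.span Qa (Set.range fun a : {a : Fin N → ℕ // ∑ i, a i = m} => ∏ i, lam i ^ a.1 i)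

/-- the span of the monomials of degree at most `m` -/
noncomputable def Mi {N : ℕ} (lam : Fin N → ℂ) (m : ℕ) : Submodule Qa ℂ :=
  Submodule.span Qa (Set.range fun a : {a : Fin N → ℕ // ∑ i, a i ≤ m} => ∏ i, lam i ^ a.1 i)

private theorem prod_single {N : ℕ} (lam : Fin N → ℂ) (a : Fin N → ℕ) (j : Fin N) :
    (∏ i, lam i ^ a i) * lam j = ∏ i, lam i ^ (a + Pi.single j 1 : Fin N → ℕ) i := by
  classical
  have h1 : ∏ i, lam i ^ (Pi.single j 1 : Fin N → ℕ) i = lam j := by
    rw [Finset.prod_eq_single j]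
    · rw [Pi.single_eq_same, pow_one]
    · intro i _ hij
      rw [Pi.single_eq_of_ne hij, pow_zero]
    · intro h
      exact absurd (Finset.mem_univ j) h
  conv_lhs => rw [← h1, ← Finset.prod_mul_distrib]
  exact Finset.prod_congr rfl fun i _ => by rw [Pi.add_apply, pow_add]

private theorem sum_single' {N : ℕ} (a : Fin N → ℕ) (j : Fin N) :
    ∑ i, (a + Pi.single j 1 : Fin N → ℕ) i = ∑ i, a i + 1 := by
  classical
  simp only [Pi.add_apply, Finset.sum_add_distrib]
  congr 1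
  rw [Finset.sum_eq_single j]
  · rw [Pi.single_eq_same]
  · intro i _ hij
    rw [Pi.single_eq_of_ne hij]
  · intro h
    exact absurd (Finset.mem_univ j) h

theorem pow_le_Mh {N : ℕ} (lam : Fin N → ℂ) (m : ℕ) :
    Submodule.span Qa (Set.range lam) ^ m ≤ Mh lam m := by
  classical
  induction m with
  | zero =>
    rw [pow_zero, Submodule.one_le]
    refine Submodule.subset_span ⟨⟨0, by simp⟩, ?_⟩
    simp
  | succ m ih =>
    rw [pow_succ]
    refine (mul_le_mul' ih le_rfl).trans ?_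
    unfold Mh
    rw [Submodule.span_mul_span, Submodule.span_le]
    rintro _ ⟨_, ⟨a, rfl⟩, _, ⟨j, rfl⟩, rfl⟩
    refine Submodule.subset_span ⟨⟨a.1 + Pi.single j 1, ?_⟩, ?_⟩
    · rw [sum_single', a.2]
    · exact (prod_single lam a.1 j).symm

theorem pow_le_Mi {N : ℕ} (lam : Fin N → ℂ) (m : ℕ) : Sp lam ^ m ≤ Mi lam m := by
  classical
  induction m with
  | zero =>
    rw [pow_zero, Submodule.one_le]
    refine Submodule.subset_span ⟨⟨0, by simp⟩, ?_⟩
    simp
  | succ m ih =>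
    rw [pow_succ]
    refine (mul_le_mul' ih le_rfl).trans ?_
    unfold Mi Sp
    rw [Submodule.span_mul_span, Submodule.span_le]
    rintro _ ⟨_, ⟨a, rfl⟩, x, hx, rfl⟩
    rcases hx with hx | ⟨j, rfl⟩
    · rw [Set.mem_singleton_iff] at hx
      subst hx
      refine Submodule.subset_span ⟨⟨a.1, a.2.trans (Nat.le_succ m)⟩, ?_⟩
      simp
    · refine Submodule.subset_span ⟨⟨a.1 + Pi.single j 1, ?_⟩, ?_⟩
      · rw [sum_single']
        exact Nat.succ_le_succ a.2
      · exact (prod_single lam a.1 j).symm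

theorem finite_le (N m : ℕ) : Finite {a : Fin N → ℕ // ∑ i, a i ≤ m} := by
  classical
  refine Finite.of_injective (fun (a : {a : Fin N → ℕ // ∑ i, a i ≤ m}) (i : Fin N) =>
    (⟨a.1 i, Nat.lt_succ_of_le ((Finset.single_le_sum (fun j _ => Nat.zero_le (a.1 j))
      (Finset.mem_univ i)).trans a.2)⟩ : Fin (m + 1))) ?_
  intro a b hab
  refine Subtype.ext (funext fun i => ?_)
  exact congrArg Fin.val (congrFun hab i)

theorem finite_eq (N m : ℕ) : Finite {a : Fin N → ℕ // ∑ i, a i = m} := by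
  have := finite_le N m
  exact Finite.of_injective (fun a : {a : Fin N → ℕ // ∑ i, a i = m} =>
    (⟨a.1, a.2.le⟩ : {a : Fin N → ℕ // ∑ i, a i ≤ m}))
    fun a b hab => Subtype.ext (congrArg (fun c : {a : Fin N → ℕ // ∑ i, a i ≤ m} => c.1) hab)

theorem le_Mh {N : ℕ} (hN : 0 < N) (lam : Fin N → ℂ)
    (halg : ∀ i, IsAlgebraic ℚ (Complex.exp (lam i))) (hli : LinearIndependent ℚ lam) {m : ℕ}
    (hm : 1 ≤ m) : N + (m - 1) * (N ^ 2 / 4) ≤ finrank Qa ↥(Mh lam m) := by
  have := finite_eq N m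
  have : FiniteDimensional Qa ↥(Mh lam m) := FiniteDimensional.span_of_finite Qa
    (Set.finite_range _)
  obtain ⟨m, rfl⟩ : ∃ k, m = k + 1 := ⟨m - 1, by omega⟩
  rw [Nat.add_sub_cancel]
  exact (pow_hom hN lam (baker_fin lam halg hli) (fun i => Submodule.subset_span (halg i)) m).trans
    (Submodule.finrank_mono (pow_le_Mh lam (m + 1)))

theorem le_Mi {N : ℕ} (hN : 0 < N) (lam : Fin N → ℂ)
    (halg : ∀ i, IsAlgebraic ℚ (Complex.exp (lam i))) (hli : LinearIndependent ℚ lam) {m : ℕ}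
    (hm : 1 ≤ m) : N + 1 + (m - 1) * (N ^ 2 / 4) ≤ finrank Qa ↥(Mi lam m) := by
  have := finite_le N m
  have : FiniteDimensional Qa ↥(Mi lam m) := FiniteDimensional.span_of_finite Qa
    (Set.finite_range _)
  obtain ⟨m, rfl⟩ : ∃ k, m = k + 1 := ⟨m - 1, by omega⟩
  rw [Nat.add_sub_cancel]
  exact (pow_inhom hN lam halg hli m).trans (Submodule.finrank_mono (pow_le_Mi lam (m + 1)))

/-- The growth, in plain terms. -/
theorem grow_plain {N : ℕ} (hN : 0 < N) (lam : Fin N → ℂ)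
    (halg : ∀ i, IsAlgebraic ℚ (Complex.exp (lam i))) (hli : LinearIndependent ℚ lam)
    (W : Submodule Qa ℂ) (hWf : FiniteDimensional Qa W) (d : ℕ) (hd : d ≤ N)
    (hdW : d ≤ finrank Qa W) :
    finrank Qa W + d * (N - d) ≤
      finrank Qa ↥(Submodule.span Qa {z : ℂ | ∃ i, ∃ w ∈ W, z = lam i * w}) := by
  have h1 := growG lam (baker_fin lam halg hli) (fun i => Submodule.subset_span (halg i)) W hd hdW
  have h2 : W * Submodule.span Qa (Set.range lam) =
      Submodule.span Qa {z : ℂ | ∃ i, ∃ w ∈ W, z = lam i * w} := by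
    conv_lhs => rw [← Submodule.span_eq W, Submodule.span_mul_span]
    congr 1
    ext z
    constructor
    · rintro ⟨w, hw, _, ⟨i, rfl⟩, rfl⟩
      exact ⟨i, w, hw, mul_comm _ _⟩
    · rintro ⟨i, w, hw, rfl⟩
      exact ⟨w, hw, _, ⟨i, rfl⟩, mul_comm _ _⟩
  rw [h2] at h1
  rcases h1 with h1 | h1
  · exact h1
  · omega

/-- Generic pairs, in plain terms. -/
theorem pairs_plain {N : ℕ} (lam : Fin N → ℂ)
    (halg : ∀ i, IsAlgebraic ℚ (Complex.exp (lam i))) (hli : LinearIndependent ℚ lam) :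
    ∃ H : MvPolynomial (Fin N ⊕ Fin N) Qa, H ≠ 0 ∧
      H.totalDegree ≤ (N ^ 2 / 4) ^ 3 / 3 ∧
      ∀ x y : Fin N → Qa, eval (Sum.elim x y) H ≠ 0 → ∀ P : MvPolynomial (Fin 2) Qa, P ≠ 0 →
        P.totalDegree < N ^ 2 / 4 →
          aeval ![∑ i, (x i : ℂ) * lam i, ∑ i, (y i : ℂ) * lam i] P ≠ 0 := by
  rcases Nat.eq_zero_or_pos (N ^ 2 / 4) with h0 | h0
  · refine ⟨1, one_ne_zero, ?_, fun x y _ P _ hP => ?_⟩
    · rw [totalDegree_one]
      exact Nat.zero_le _
    · rw [h0] at hP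
      omega
  · obtain ⟨D, hD⟩ : ∃ D, N ^ 2 / 4 = D + 1 := ⟨N ^ 2 / 4 - 1, by omega⟩
    obtain ⟨x0, y0, h1⟩ := exists_pair (D := D) lam (baker_fin lam halg hli)
      (fun i => Submodule.subset_span (halg i)) (by rw [← sq, hD]; omega)
    obtain ⟨H, hH0, hHd, hH⟩ := pair_minor lam (fun i => ((x0 i : ℚ) : Qa))
      (fun i => ((y0 i : ℚ) : Qa)) (by
        have h2 : ∀ q : ℚ, (((q : ℚ) : Qa) : ℂ) = (q : ℂ) := fun q => by norm_cast
        simp only [h2]
        exact h1)
    refine ⟨H, hH0, hHd.trans (Nat.div_le_div_right ?_), fun x y hxy P hP0 hP hPe => ?_⟩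
    · rw [hD]
      have : (D + 1) ^ 3 = D * (D + 1) * (D + 2) + (D + 1) := by ring
      omega
    · rw [hD] at hP
      exact hH x y hxy ⟨P, hP0, by omega, hPe⟩

/-- Natural numbers, in plain terms. -/
theorem primes_plain :
    ∃ a : ℕ → ℕ, (∀ b, ∃ x : ℕ → ℕ, (∀ t, x t ≤ (b + 1) ^ 7) ∧
        a b = ∏ t ∈ Finset.range (2 * b + 2), Nat.nth Nat.Prime t ^ x t) ∧
      ∀ i j, i < j → ∀ P : MvPolynomial (Fin 2) Qa, P ≠ 0 → P.totalDegree < (i + 1) ^ 2 →
        aeval ![Complex.log (a i), Complex.log (a j)] P ≠ 0 := by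
  obtain ⟨a, h1, h2⟩ := pairs_primes fun b => by
    have hli : LinearIndependent ℚ (fun i : Fin (2 * b + 2) => HD.logP i) :=
      HD.hliP.comp (fun i : Fin (2 * b + 2) => (i : ℕ)) Fin.val_injective
    refine exists_pair (fun i : Fin (2 * b + 2) => HD.logP i)
      (baker_fin _ (fun i => HD.halgP i) hli) (fun i => Submodule.subset_span (HD.halgP i)) ?_
    have h3 : (2 * b + 2) * (2 * b + 2) = (b + 1) ^ 2 * 4 := by ring
    rw [h3, Nat.mul_div_cancel _ (by norm_num)]
    have : 1 ≤ (b + 1) ^ 2 := Nat.one_le_pow _ _ (by omega)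
    omega
  refine ⟨a, h1, fun i j hij P hP0 hP hPe => h2 i j hij ⟨P, hP0, by omega, hPe⟩⟩

end MP60829e.HF
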