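import Pool.Agent.Lib.MP_60829e_nt.HF.Defs
import Pool.Agent.Lib.MP_60829e_nt.FD.Cnt
import Mathlib.RingTheory.Nullstellensatz

/-! # Growth of the Hilbert function -/

open Module

namespace MP60829e.HF

open MP60829e.ST (Qa Lsp Lt)

/-- the ring generated by the `lam i` -/
noncomputable def Rg {N : ℕ} (lam : Fin N → ℂ) : Subalgebra Qa ℂ :=
  (MvPolynomial.aeval lam : MvPolynomial (Fin N) Qa →ₐ[Qa] ℂ).range

theorem Sp_le_Rg {N : ℕ} (lam : Fin N → ℂ) : Sp lam ≤ Subalgebra.toSubmodule (Rg lam) := by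
  refine Submodule.span_le.2 ?_
  rintro x (hx | ⟨i, rfl⟩)
  · rw [Set.mem_singleton_iff] at hx
    rw [hx]
    exact (Rg lam).one_mem
  · exact ⟨MvPolynomial.X i, MvPolynomial.aeval_X _ _⟩

theorem pow_le_Rg {N : ℕ} (lam : Fin N → ℂ) (m : ℕ) :
    Sp lam ^ m ≤ Subalgebra.toSubmodule (Rg lam) := by
  induction m with
  | zero =>
    rw [pow_zero, Submodule.one_le]
    exact (Rg lam).one_mem
  | succ m ih =>
    rw [pow_succ, Submodule.mul_le]
    intro a ha b hb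
    exact (Rg lam).mul_mem (ih ha) (Sp_le_Rg lam hb)

/-- Nullstellensatz: the points separate. -/
theorem exists_point {N : ℕ} (lam : Fin N → ℂ) (f : Rg lam) (hf : f ≠ 0) :
    ∃ φ : Rg lam →ₐ[Qa] Qa, φ f ≠ 0 := by
  have : IsAlgClosed Qa := inferInstance
  obtain ⟨ev, hev⟩ : ∃ ev : MvPolynomial (Fin N) Qa →ₐ[Qa] ℂ, ev = MvPolynomial.aeval lam :=
    ⟨_, rfl⟩
  have hP : (RingHom.ker ev).IsPrime := RingHom.ker_isPrime ev
  have hR : Rg lam = ev.range := by rw [hev]; rfl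
  have hsurj : Function.Surjective
      ((MvPolynomial.aeval lam : MvPolynomial (Fin N) Qa →ₐ[Qa] ℂ).rangeRestrict) :=
    AlgHom.rangeRestrict_surjective _
  obtain ⟨p, hp⟩ := hsurj f
  have hpI : p ∉ RingHom.ker ev := by
    intro h
    apply hf
    apply Subtype.ext
    rw [← hp]
    rw [RingHom.mem_ker, hev] at h
    exact h
  have h1 : p ∉ MvPolynomial.vanishingIdeal Qa
      (MvPolynomial.zeroLocus Qa (RingHom.ker ev)) := by
    rwa [MvPolynomial.IsPrime.vanishingIdeal_zeroLocus]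
  rw [MvPolynomial.mem_vanishingIdeal_iff] at h1
  push Not at h1
  obtain ⟨z, hz, hpz⟩ := h1
  refine ⟨AlgHom.liftOfSurjective _ hsurj (MvPolynomial.aeval z) ?_, ?_⟩
  · intro q hq
    have h2 : q ∈ RingHom.ker ev := by
      rw [RingHom.mem_ker, hev]
      have h3 := congrArg Subtype.val (RingHom.mem_ker.1 hq)
      exact h3
    exact (MvPolynomial.mem_zeroLocus_iff.1 hz) q h2
  · rw [← hp]
    intro h
    apply hpz
    rw [← h]
    exact (AlgHom.liftOfSurjective_apply _ hsurj _ _ p).symm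

/-- The kernel of a point in a space. -/
noncomputable def Cut {A : Subalgebra Qa ℂ} (φ : A →ₐ[Qa] Qa) (V : Submodule Qa ℂ)
    (hV : ∀ x ∈ V, x ∈ A) : Submodule Qa ℂ where
  carrier := {x | ∃ h : x ∈ V, φ ⟨x, hV x h⟩ = 0}
  add_mem' := by
    rintro a b ⟨ha, ha'⟩ ⟨hb, hb'⟩
    refine ⟨V.add_mem ha hb, ?_⟩
    have : (⟨a + b, hV _ (V.add_mem ha hb)⟩ : A) = ⟨a, hV a ha⟩ + ⟨b, hV b hb⟩ := rfl
    rw [this, map_add, ha', hb', add_zero]
  zero_mem' := ⟨V.zero_mem, map_zero φ⟩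
  smul_mem' := by
    rintro c a ⟨ha, ha'⟩
    refine ⟨V.smul_mem c ha, ?_⟩
    have : (⟨c • a, hV _ (V.smul_mem c ha)⟩ : A) = c • ⟨a, hV a ha⟩ := rfl
    rw [this, map_smul, ha', smul_zero]

theorem mem_Cut {A : Subalgebra Qa ℂ} {φ : A →ₐ[Qa] Qa} {V : Submodule Qa ℂ}
    {hV : ∀ x ∈ V, x ∈ A} {x : ℂ} : x ∈ Cut φ V hV ↔ ∃ h : x ∈ V, φ ⟨x, hV x h⟩ = 0 := Iff.rfl

theorem Cut_le {A : Subalgebra Qa ℂ} (φ : A →ₐ[Qa] Qa) (V : Submodule Qa ℂ)
    (hV : ∀ x ∈ V, x ∈ A) : Cut φ V hV ≤ V := fun _ hx => hx.1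

theorem finrank_Cut {A : Subalgebra Qa ℂ} (φ : A →ₐ[Qa] Qa) (V : Submodule Qa ℂ)
    [FiniteDimensional Qa V] (hV : ∀ x ∈ V, x ∈ A) (f : ℂ) (hf : f ∈ V)
    (hφ : φ ⟨f, hV f hf⟩ ≠ 0) : finrank Qa (Cut φ V hV) + 1 = finrank Qa V := by
  let g : V →ₗ[Qa] Qa :=
    { toFun := fun v => φ ⟨v, hV v v.2⟩
      map_add' := fun a b => by
        have : (⟨((a + b : V) : ℂ), hV _ (a + b).2⟩ : A) = ⟨a, hV a a.2⟩ + ⟨b, hV b b.2⟩ := rfl
        rw [this, map_add]
      map_smul' := fun c a => by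
        have : (⟨((c • a : V) : ℂ), hV _ (c • a).2⟩ : A) = c • ⟨a, hV a a.2⟩ := rfl
        rw [this, map_smul, RingHom.id_apply] }
  have hg : Function.Surjective g := by
    apply LinearMap.surjective
    intro h
    apply hφ
    have := LinearMap.congr_fun h ⟨f, hf⟩
    exact this
  have h1 := LinearMap.finrank_range_add_finrank_ker g
  rw [LinearMap.range_eq_top.2 hg, finrank_top, finrank_self] at h1
  have h2 : (LinearMap.ker g).map V.subtype = Cut φ V hV := by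
    ext x
    rw [Submodule.mem_map, mem_Cut]
    constructor
    · rintro ⟨y, hy, rfl⟩
      exact ⟨y.2, hy⟩
    · rintro ⟨hx, hx'⟩
      exact ⟨⟨x, hx⟩, hx', rfl⟩
  have h3 := LinearEquiv.finrank_eq (Submodule.equivMapOfInjective V.subtype
    V.subtype_injective (LinearMap.ker g))
  rw [← h2, ← h3]
  omega

/-- Points cut down the two spaces simultaneously. -/
theorem exists_cut {N : ℕ} (lam : Fin N → ℂ) (m j : ℕ) (hj : j ≤ finrank Qa ↥(Sp lam ^ m)) :
    ∃ W Z : Submodule Qa ℂ, W ≤ Sp lam ^ m ∧ Z ≤ Sp lam ^ (m + 1) ∧ W * Sp lam ≤ Z ∧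
      finrank Qa W + j = finrank Qa ↥(Sp lam ^ m) ∧
      finrank Qa Z + j = finrank Qa ↥(Sp lam ^ (m + 1)) := by
  have hfin : ∀ m, FiniteDimensional Qa ↥(Sp lam ^ m) := fun m =>
    Module.Finite.iff_fg.2 ((Module.Finite.iff_fg.1 (fin_Sp lam)).pow m)
  induction j with
  | zero =>
    exact ⟨_, _, le_rfl, le_rfl, by rw [pow_succ], rfl, rfl⟩
  | succ j ih =>
    obtain ⟨W, Z, hW, hZ, hWZ, h1, h2⟩ := ih (by omega)
    have := hfin m
    have := hfin (m + 1)
    have hWf : FiniteDimensional Qa W := Submodule.finiteDimensional_of_le hW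
    have hZf : FiniteDimensional Qa Z := Submodule.finiteDimensional_of_le hZ
    have hWA : ∀ x ∈ W, x ∈ Rg lam := fun x hx => pow_le_Rg lam m (hW hx)
    have hZA : ∀ x ∈ Z, x ∈ Rg lam := fun x hx => pow_le_Rg lam (m + 1) (hZ hx)
    have hWle : W ≤ Z := by
      intro x hx
      apply hWZ
      rw [← mul_one x]
      exact Submodule.mul_mem_mul hx (one_mem_Sp lam)
    obtain ⟨f, hf, hf0⟩ : ∃ f ∈ W, f ≠ 0 := by
      by_contra hcon
      push Not at hcon
      have hb : W = ⊥ := (Submodule.eq_bot_iff W).2 hcon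
      rw [hb, finrank_bot] at h1
      omega
    obtain ⟨φ, hφ⟩ := exists_point lam ⟨f, hWA f hf⟩ (fun h => hf0 (congrArg Subtype.val h))
    refine ⟨Cut φ W hWA, Cut φ Z hZA, (Cut_le _ _ _).trans hW, (Cut_le _ _ _).trans hZ, ?_, ?_, ?_⟩
    · rw [Submodule.mul_le]
      rintro w ⟨hw, hw'⟩ s hs
      have h3 : w * s ∈ Z := hWZ (Submodule.mul_mem_mul hw hs)
      refine ⟨h3, ?_⟩
      have h4 : (⟨w * s, hZA _ h3⟩ : Rg lam) = ⟨w, hWA w hw⟩ * ⟨s, Sp_le_Rg lam hs⟩ := rfl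
      rw [h4, map_mul, hw', zero_mul]
    · have := finrank_Cut φ W hWA f hf hφ
      omega
    · have := finrank_Cut φ Z hZA f (hWle hf) hφ
      omega

/-- The kernel, sharp constant. -/
theorem finrank_ker_les {e r : ℕ} (lam : Fin r → ℂ) (hli : LinearIndependent Qa lam)
    (hlog : ∀ j, lam j ∈ Lsp) (b : Fin e → ℂ) (hb : LinearIndependent Qa b) :
    finrank Qa (LinearMap.ker (FD.bT lam b)) ≤ e * (e - 1) := by
  obtain ⟨hfin, hle⟩ := HS.hps b hb ((LinearMap.ker (FD.bT lam b)).map (FD.vT lam))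
    (by
      rintro _ ⟨T, -, rfl⟩ i
      rw [FD.vT_apply]
      exact Submodule.sum_mem _ fun j _ => Lsp.smul_mem _ (hlog j))
    (by
      rintro _ ⟨T, hT, rfl⟩
      have h1 : FD.bT lam b T = 0 := hT
      rw [FD.bT_apply] at h1
      simpa [FD.vT_apply] using h1)
  rwa [LinearEquiv.finrank_eq (Submodule.equivMapOfInjective (FD.vT lam)
    (FD.vT_injective lam hli) (LinearMap.ker (FD.bT lam b)))]

/-- **Growth.** -/
theorem grow {N : ℕ} (lam : Fin N → ℂ) (hlam : LinearIndependent Qa lam) (hlog : ∀ i, lam i ∈ Lsp)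
    {d m : ℕ} (hd : d ≤ N) (hdm : d ≤ finrank Qa ↥(Sp lam ^ m)) :
    finrank Qa ↥(Sp lam ^ m) + d * (N - d) ≤ finrank Qa ↥(Sp lam ^ (m + 1)) := by
  have hfin : ∀ m, FiniteDimensional Qa ↥(Sp lam ^ m) := fun m =>
    Module.Finite.iff_fg.2 ((Module.Finite.iff_fg.1 (fin_Sp lam)).pow m)
  have := hfin m
  have := hfin (m + 1)
  obtain ⟨W, Z, hW, hZ, hWZ, h1, h2⟩ := exists_cut lam m (finrank Qa ↥(Sp lam ^ m) - d) (by omega)
  have hWf : FiniteDimensional Qa W := Submodule.finiteDimensional_of_le hW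
  have hZf : FiniteDimensional Qa Z := Submodule.finiteDimensional_of_le hZ
  have hWd : finrank Qa W = d := by omega
  let w := finBasisOfFinrankEq Qa W hWd
  have hw : LinearIndependent Qa fun i => (w i : ℂ) :=
    w.linearIndependent.map' W.subtype (LinearMap.ker_eq_bot.2 W.subtype_injective)
  have h3 := finrank_ker_les lam hlam hlog (fun i => (w i : ℂ)) hw
  have h4 := LinearMap.finrank_range_add_finrank_ker (FD.bT lam fun i => (w i : ℂ))
  have h5 : finrank Qa (Fin d → Fin N → Qa) = d * N := by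
    rw [Module.finrank_pi_fintype]
    simp
  rw [h5] at h4
  have h6 : LinearMap.range (FD.bT lam fun i => (w i : ℂ)) ≤ Z := by
    rintro _ ⟨T, rfl⟩
    rw [FD.bT_apply]
    refine Submodule.sum_mem _ fun t _ => hWZ (Submodule.mul_mem_mul (w t).2 ?_)
    exact Submodule.sum_mem _ fun j _ => Submodule.smul_mem _ _ (mem_Sp lam j)
  have h7 := Submodule.finrank_mono h6
  have h8 : d * (N - d) + d * d = d * N := by
    rw [← mul_add, Nat.sub_add_cancel hd]
  have h9 : d * (d - 1) + d = d * d := by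
    rcases Nat.eq_zero_or_pos d with h | h
    · subst h; rfl
    · obtain ⟨k, rfl⟩ : ∃ k, d = k + 1 := ⟨d - 1, by omega⟩
      rw [Nat.add_sub_cancel]
      ring
  omega

end MP60829e.HF
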