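import Pool.Agent.Lib.MP_60829e_nt.HF.Grow

/-! # Growth of an arbitrary space of complex numbers, multiplied by logarithms -/

open Module

namespace MP60829e.HF

open MP60829e.ST (Qa Lsp Lt)

theorem sub_Rg {n : ℕ} {x : Fin n → ℂ} {V : Submodule Qa ℂ}
    (h : V ≤ Submodule.span Qa (Set.range x)) : V ≤ Subalgebra.toSubmodule (Rg x) :=
  h.trans ((Submodule.span_mono Set.subset_union_right).trans (Sp_le_Rg x))

/-- Points cut down the two spaces simultaneously. -/
theorem exists_cutG {n : ℕ} (x : Fin n → ℂ) (W0 S : Submodule Qa ℂ) [FiniteDimensional Qa W0]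
    [FiniteDimensional Qa ↥(W0 * S)] (hW0 : W0 ≤ Subalgebra.toSubmodule (Rg x))
    (hS : S ≤ Subalgebra.toSubmodule (Rg x)) (h1S : (1 : ℂ) ∈ S) (j : ℕ) (hj : j ≤ finrank Qa W0) :
    ∃ W Z : Submodule Qa ℂ, W ≤ W0 ∧ Z ≤ W0 * S ∧ W * S ≤ Z ∧
      finrank Qa W + j = finrank Qa W0 ∧ finrank Qa Z + j = finrank Qa ↥(W0 * S) := by
  have hWS : W0 * S ≤ Subalgebra.toSubmodule (Rg x) := by
    rw [Submodule.mul_le]
    intro a ha b hb
    exact (Rg x).mul_mem (hW0 ha) (hS hb)
  induction j with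
  | zero => exact ⟨_, _, le_rfl, le_rfl, le_rfl, rfl, rfl⟩
  | succ j ih =>
    obtain ⟨W, Z, hW, hZ, hWZ, h1, h2⟩ := ih (by omega)
    have hWf : FiniteDimensional Qa W := Submodule.finiteDimensional_of_le hW
    have hZf : FiniteDimensional Qa Z := Submodule.finiteDimensional_of_le hZ
    have hWA : ∀ y ∈ W, y ∈ Rg x := fun y hy => hW0 (hW hy)
    have hZA : ∀ y ∈ Z, y ∈ Rg x := fun y hy => hWS (hZ hy)
    have hWle : W ≤ Z := by
      intro y hy
      apply hWZ
      rw [← mul_one y]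
      exact Submodule.mul_mem_mul hy h1S
    obtain ⟨f, hf, hf0⟩ : ∃ f ∈ W, f ≠ 0 := by
      by_contra hcon
      push Not at hcon
      have hb : W = ⊥ := (Submodule.eq_bot_iff W).2 hcon
      rw [hb, finrank_bot] at h1
      omega
    obtain ⟨φ, hφ⟩ := exists_point x ⟨f, hWA f hf⟩ (fun h => hf0 (congrArg Subtype.val h))
    refine ⟨Cut φ W hWA, Cut φ Z hZA, (Cut_le _ _ _).trans hW, (Cut_le _ _ _).trans hZ, ?_, ?_, ?_⟩
    · rw [Submodule.mul_le]
      rintro w ⟨hw, hw'⟩ s hs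
      have h3 : w * s ∈ Z := hWZ (Submodule.mul_mem_mul hw hs)
      refine ⟨h3, ?_⟩
      have h4 : (⟨w * s, hZA _ h3⟩ : Rg x) = ⟨w, hWA w hw⟩ * ⟨s, hS hs⟩ := rfl
      rw [h4, map_mul, hw', zero_mul]
    · have := finrank_Cut φ W hWA f hf hφ
      omega
    · have := finrank_Cut φ Z hZA f (hWle hf) hφ
      omega

theorem mul_map_mulLeft (c : ℂ) (W S : Submodule Qa ℂ) :
    W * S.map (LinearMap.mulLeft Qa c) = (W * S).map (LinearMap.mulLeft Qa c) := by
  apply le_antisymm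
  · rw [Submodule.mul_le]
    rintro a ha _ ⟨b, hb, rfl⟩
    refine ⟨a * b, Submodule.mul_mem_mul ha hb, ?_⟩
    rw [LinearMap.mulLeft_apply, LinearMap.mulLeft_apply]
    ring
  · rw [Submodule.map_le_iff_le_comap, Submodule.mul_le]
    intro a ha b hb
    rw [Submodule.mem_comap, LinearMap.mulLeft_apply]
    rw [show c * (a * b) = a * (c * b) by ring]
    exact Submodule.mul_mem_mul ha ⟨b, hb, rfl⟩

theorem finrank_mulLeft {c : ℂ} (hc : c ≠ 0) (W : Submodule Qa ℂ) :
    finrank Qa ↥(W.map (LinearMap.mulLeft Qa c)) = finrank Qa W :=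
  (LinearEquiv.finrank_eq (Submodule.equivMapOfInjective (LinearMap.mulLeft Qa c)
    (fun a b h => mul_left_cancel₀ hc h) W)).symm

/-- **Growth.** An arbitrary finite-dimensional space of complex numbers, multiplied by `N`
logarithms. -/
theorem growG {N : ℕ} (lam : Fin N → ℂ) (hlam : LinearIndependent Qa lam)
    (hlog : ∀ i, lam i ∈ Lsp) (W0 : Submodule Qa ℂ) [FiniteDimensional Qa W0] {d : ℕ} (hd : d ≤ N)
    (hdW : d ≤ finrank Qa W0) :
    finrank Qa W0 + d * (N - d) ≤ finrank Qa ↥(W0 * Submodule.span Qa (Set.range lam)) ∨ N = 0 := by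
  classical
  rcases Nat.eq_zero_or_pos N with hN | hN
  · exact Or.inr hN
  left
  obtain ⟨l0, hl0⟩ : ∃ l0, l0 = lam ⟨0, hN⟩ := ⟨_, rfl⟩
  have hne : l0 ≠ 0 := by
    rw [hl0]
    exact hlam.ne_zero _
  obtain ⟨μ, hμ⟩ : ∃ μ : Fin N → ℂ, μ = fun j => l0⁻¹ * lam j := ⟨_, rfl⟩
  obtain ⟨S, hS⟩ : ∃ S, S = Submodule.span Qa (Set.range μ) := ⟨_, rfl⟩
  have hA : Submodule.span Qa (Set.range lam) = S.map (LinearMap.mulLeft Qa l0) := by
    rw [hS, Submodule.map_span]
    congr 1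
    ext y
    constructor
    · rintro ⟨j, rfl⟩
      refine ⟨μ j, ⟨j, rfl⟩, ?_⟩
      rw [LinearMap.mulLeft_apply, hμ]
      field_simp
    · rintro ⟨_, ⟨j, rfl⟩, rfl⟩
      refine ⟨j, ?_⟩
      rw [LinearMap.mulLeft_apply, hμ]
      field_simp
  have hSf : FiniteDimensional Qa S := by
    rw [hS]
    exact FiniteDimensional.span_of_finite Qa (Set.finite_range _)
  have hfW : FiniteDimensional Qa ↥(W0 * S) :=
    Module.Finite.iff_fg.2 ((Module.Finite.iff_fg.1 inferInstance).mul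
      (Module.Finite.iff_fg.1 hSf))
  rw [hA, mul_map_mulLeft, finrank_mulLeft hne]
  have h1S : (1 : ℂ) ∈ S := by
    rw [hS]
    refine Submodule.subset_span ⟨⟨0, hN⟩, ?_⟩
    rw [hμ]
    simp only
    rw [← hl0, inv_mul_cancel₀ hne]
  -- generators
  let bW := finBasis Qa W0
  obtain ⟨x, hx⟩ : ∃ x : Fin (finrank Qa W0 + N) → ℂ,
      x = Fin.append (fun i => ((bW i : W0) : ℂ)) μ := ⟨_, rfl⟩
  have hxW : W0 ≤ Subalgebra.toSubmodule (Rg x) := by
    apply sub_Rg
    intro y hy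
    have h1 := bW.sum_repr ⟨y, hy⟩
    have h2 := congrArg Subtype.val h1
    rw [AddSubmonoidClass.coe_finset_sum] at h2
    have h3 : (y : ℂ) = ∑ i, ((bW.repr ⟨y, hy⟩ i • bW i : W0) : ℂ) := h2.symm
    rw [h3]
    refine Submodule.sum_mem _ fun i _ => ?_
    rw [Submodule.coe_smul]
    refine Submodule.smul_mem _ _ (Submodule.subset_span ⟨Fin.castAdd N i, ?_⟩)
    rw [hx, Fin.append_left]
  have hxS : S ≤ Subalgebra.toSubmodule (Rg x) := by
    apply sub_Rg
    rw [hS]
    refine Submodule.span_mono ?_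
    rintro _ ⟨j, rfl⟩
    refine ⟨Fin.natAdd _ j, ?_⟩
    rw [hx, Fin.append_right]
  obtain ⟨W, Z, hW, hZ, hWZ, h1, h2⟩ := exists_cutG x W0 S hxW hxS h1S (finrank Qa W0 - d)
    (by omega)
  have hWf : FiniteDimensional Qa W := Submodule.finiteDimensional_of_le hW
  have hZf : FiniteDimensional Qa Z := Submodule.finiteDimensional_of_le hZ
  have hWd : finrank Qa W = d := by omega
  let w := finBasisOfFinrankEq Qa W hWd
  have hw : LinearIndependent Qa fun i => (w i : ℂ) :=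
    w.linearIndependent.map' W.subtype (LinearMap.ker_eq_bot.2 W.subtype_injective)
  have h3 := finrank_ker_les lam hlam hlog (fun i => (w i : ℂ)) hw
  have hker : LinearMap.ker (FD.bT μ fun i => (w i : ℂ)) =
      LinearMap.ker (FD.bT lam fun i => (w i : ℂ)) := by
    ext T
    rw [LinearMap.mem_ker, LinearMap.mem_ker]
    have h5 : FD.bT lam (fun i => (w i : ℂ)) T = l0 * FD.bT μ (fun i => (w i : ℂ)) T := by
      rw [FD.bT_apply, FD.bT_apply, Finset.mul_sum]
      refine Finset.sum_congr rfl fun t _ => ?_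
      rw [mul_left_comm]
      congr 1
      rw [Finset.mul_sum]
      refine Finset.sum_congr rfl fun j _ => ?_
      rw [mul_smul_comm, hμ]
      simp only
      rw [← mul_assoc, mul_inv_cancel₀ hne, one_mul]
    rw [h5, mul_eq_zero]
    exact ⟨fun h => Or.inr h, fun h => h.resolve_left hne⟩
  have h4 := LinearMap.finrank_range_add_finrank_ker (FD.bT μ fun i => (w i : ℂ))
  have h5 : finrank Qa (Fin d → Fin N → Qa) = d * N := by
    rw [Module.finrank_pi_fintype]
    simp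
  rw [h5, hker] at h4
  have h6 : LinearMap.range (FD.bT μ fun i => (w i : ℂ)) ≤ Z := by
    rintro _ ⟨T, rfl⟩
    rw [FD.bT_apply]
    refine Submodule.sum_mem _ fun t _ => hWZ (Submodule.mul_mem_mul (w t).2 ?_)
    refine Submodule.sum_mem _ fun j _ => Submodule.smul_mem _ _ ?_
    rw [hS]
    exact Submodule.subset_span ⟨j, rfl⟩
  have h7 := Submodule.finrank_mono h6
  have h8 : d * (N - d) + d * d = d * N := by
    rw [← mul_add, Nat.sub_add_cancel hd]
  have h9 : d * (d - 1) + d = d * d := by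
    rcases Nat.eq_zero_or_pos d with h | h
    · subst h; rfl
    · obtain ⟨k, rfl⟩ : ∃ k, d = k + 1 := ⟨d - 1, by omega⟩
      rw [Nat.add_sub_cancel]
      ring
  omega

end MP60829e.HF
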