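import Pool.Agent.Lib.MP_60829e_nt.HF.Defs

/-! # The degree of a curve

If `u` is transcendental and every rational combination `v` of the `lam i` satisfies a relation of degree
`≤ D` with `u`, the field generated by the `lam i` over `Qa (u)` has degree at most `D`. -/

open Module

namespace MP60829e.HF

open MP60829e.ST (Qa Lsp Lt)

open Polynomial in
/-- A relation gives a nonzero polynomial over a subfield containing `u`. -/
theorem rel_poly {F : IntermediateField Qa ℂ} {u w : ℂ} (hu : Transcendental Qa u) (huF : u ∈ F)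
    {D : ℕ} (h : Rel D u w) : ∃ Q : Polynomial F, Q ≠ 0 ∧ Q.natDegree ≤ D ∧ aeval w Q = 0 := by
  classical
  obtain ⟨P, hP, hdeg, hv⟩ := h
  set u' : F := ⟨u, huF⟩ with hu'
  have hu't : Transcendental Qa u' := by
    intro ha
    apply hu
    have := ha.algHom F.val
    simpa using this
  set Q : Polynomial F := ∑ s ∈ P.support, C (algebraMap Qa F (P.coeff s) * u' ^ (s 0)) * X ^ (s 1)
    with hQ
  have hcoef : ∀ j, Q.coeff j = aeval u' (∑ s ∈ P.support with s 1 = j, C (P.coeff s) * X ^ (s 0)) := by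
    intro j
    rw [hQ, finsetSum_coeff, map_sum, Finset.sum_filter]
    refine Finset.sum_congr rfl fun s _ => ?_
    rw [coeff_C_mul, coeff_X_pow]
    by_cases hj : s 1 = j
    · rw [if_pos hj, if_pos hj.symm, mul_one, map_mul, aeval_C, map_pow, aeval_X]
    · rw [if_neg hj, if_neg (Ne.symm hj), mul_zero]
  refine ⟨Q, ?_, ?_, ?_⟩
  · intro h0
    obtain ⟨s, hs⟩ := MvPolynomial.support_nonempty.2 hP
    have h1 := hcoef (s 1)
    rw [h0, coeff_zero] at h1
    have h2 : (∑ t ∈ P.support with t 1 = s 1, C (P.coeff t) * X ^ (t 0) : Polynomial Qa) = 0 := by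
      by_contra hne
      exact hu't ⟨_, hne, h1.symm⟩
    have h3 := congrArg (fun R => Polynomial.coeff R (s 0)) h2
    simp only [finsetSum_coeff, coeff_zero, coeff_C_mul, coeff_X_pow] at h3
    rw [Finset.sum_eq_single s] at h3
    · rw [if_pos rfl, mul_one] at h3
      exact (MvPolynomial.mem_support_iff.1 hs) h3
    · intro t ht hts
      rw [if_neg, mul_zero]
      intro h4
      apply hts
      ext i
      have ht1 := (Finset.mem_filter.1 ht).2
      fin_cases i
      · exact h4.symm
      · exact ht1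
    · intro hns
      exact (hns (Finset.mem_filter.2 ⟨hs, rfl⟩)).elim
  · rw [hQ]
    refine natDegree_sum_le_of_forall_le _ _ fun s hs => ?_
    refine (natDegree_C_mul_X_pow_le _ _).trans ?_
    have h1 := MvPolynomial.le_totalDegree hs
    have h2 : s 1 ≤ s.sum fun _ e => e := by
      rw [Finsupp.sum_fintype _ _ (fun _ => rfl), Fin.sum_univ_two]
      omega
    omega
  · rw [hQ, map_sum]
    rw [MvPolynomial.aeval_def, MvPolynomial.eval₂_eq'] at hv
    rw [← hv]
    refine Finset.sum_congr rfl fun s _ => ?_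
    rw [map_mul, aeval_C, map_pow, aeval_X, map_mul, map_pow, Fin.prod_univ_two]
    simp only [Matrix.cons_val_zero, Matrix.cons_val_one]
    have e1 : algebraMap F ℂ u' = u := rfl
    have e2 : algebraMap F ℂ (algebraMap Qa F (P.coeff s)) = algebraMap Qa ℂ (P.coeff s) := rfl
    rw [e1, e2, mul_assoc]

/-- powers of the space spanned by `1` and `u` -/
theorem Un_pow_le (u : ℂ) (n : ℕ) :
    Un u ^ n ≤ Submodule.span Qa ((fun i : ℕ => u ^ i) '' (Finset.range (n + 1) : Set ℕ)) := by
  induction n with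
  | zero =>
    rw [pow_zero, Submodule.one_eq_span]
    refine Submodule.span_mono ?_
    rintro x rfl
    exact ⟨0, by simp, pow_zero u⟩
  | succ n ih =>
    rw [pow_succ]
    refine (mul_le_mul' ih le_rfl).trans ?_
    rw [Un, Submodule.span_mul_span]
    refine Submodule.span_mono ?_
    rintro x ⟨_, ⟨i, hi, rfl⟩, z, hz, rfl⟩
    have hi' : i < n + 1 := by simpa using hi
    rcases hz with rfl | rfl
    · exact ⟨i, by simp; omega, by simp⟩
    · exact ⟨i + 1, by simp; omega, by simp [pow_succ]⟩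

theorem one_mem_Un (u : ℂ) : (1 : ℂ) ∈ Un u := Submodule.subset_span (by simp)

theorem self_mem_Un (u : ℂ) : u ∈ Un u := Submodule.subset_span (by simp)

theorem one_le_Un (u : ℂ) : (1 : Submodule Qa ℂ) ≤ Un u := by
  rw [Submodule.one_le]
  exact one_mem_Un u

theorem aeval_mem_Un (u : ℂ) (p : Polynomial Qa) {C : ℕ} (h : p.natDegree ≤ C) :
    Polynomial.aeval u p ∈ Un u ^ C := by
  rw [Polynomial.aeval_eq_sum_range]
  refine Submodule.sum_mem _ fun i hi => Submodule.smul_mem _ _ ?_
  have h1 : u ^ i ∈ Un u ^ i := Submodule.pow_mem_pow _ (self_mem_Un u) i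
  have h2 : i ≤ C := by
    have := Finset.mem_range.1 hi
    omega
  exact pow_le_pow_right₀ (one_le_Un u) h2 h1

theorem finrank_Un_mul {ι : Type} [Fintype ι] (u : ℂ) (b : ι → ℂ) (n : ℕ) :
    FiniteDimensional Qa ↥(Un u ^ n * Submodule.span Qa (Set.range b)) ∧
    finrank Qa ↥(Un u ^ n * Submodule.span Qa (Set.range b)) ≤ (n + 1) * Fintype.card ι := by
  classical
  set s : Finset ℂ := (Finset.range (n + 1) ×ˢ (Finset.univ : Finset ι)).image
    fun p => u ^ p.1 * b p.2 with hs
  have h1 : Un u ^ n * Submodule.span Qa (Set.range b) ≤ Submodule.span Qa (s : Set ℂ) := by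
    refine (mul_le_mul' (Un_pow_le u n) le_rfl).trans ?_
    rw [Submodule.span_mul_span]
    refine Submodule.span_mono ?_
    rintro x ⟨_, ⟨i, hi, rfl⟩, _, ⟨j, rfl⟩, rfl⟩
    rw [hs]
    simp only [Finset.coe_image, Set.mem_image]
    exact ⟨(i, j), by simpa using hi, rfl⟩
  have : FiniteDimensional Qa (Submodule.span Qa (s : Set ℂ)) :=
    FiniteDimensional.span_of_finite Qa s.finite_toSet
  refine ⟨Submodule.finiteDimensional_of_le h1, ?_⟩
  refine (Submodule.finrank_mono h1).trans ((finrank_span_finset_le_card s).trans ?_)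
  rw [hs]
  refine Finset.card_image_le.trans ?_
  rw [Finset.card_product, Finset.card_range, Finset.card_univ]


/-- The number of conjugates. -/
theorem finrank_le {N D : ℕ} (F : IntermediateField Qa ℂ) (lam : Fin N → ℂ)
    (h : ∀ y : Fin N → ℚ, ∃ Q : Polynomial F, Q ≠ 0 ∧ Q.natDegree ≤ D ∧
      Polynomial.aeval (∑ i, (y i : ℂ) * lam i) Q = 0) :
    FiniteDimensional F (IntermediateField.adjoin F (Set.range lam)) ∧
    finrank F (IntermediateField.adjoin F (Set.range lam)) ≤ D := by
  classical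
  set K := IntermediateField.adjoin F (Set.range lam) with hK
  have halg : ∀ i, IsAlgebraic F (lam i) := by
    intro i
    obtain ⟨Q, hQ, -, hv⟩ := h (Pi.single i 1)
    refine ⟨Q, hQ, ?_⟩
    have e1 : ∑ j, ((Pi.single i (1 : ℚ) : Fin N → ℚ) j : ℂ) * lam j = lam i := by
      rw [Finset.sum_eq_single i]
      · simp
      · intro j _ hj
        rw [Pi.single_eq_of_ne hj]
        simp
      · simp
    rw [← e1]
    exact hv
  have hfin : FiniteDimensional F K := by
    rw [hK]
    refine IntermediateField.finiteDimensional_adjoin ?_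
    rintro _ ⟨i, rfl⟩
    exact (halg i).isIntegral
  refine ⟨hfin, ?_⟩
  set l : Fin N → K := fun i => ⟨lam i, IntermediateField.subset_adjoin F _ ⟨i, rfl⟩⟩ with hl
  have hdiff : ∀ σ τ : K →ₐ[F] ℂ, σ ≠ τ → ∃ i, σ (l i) ≠ τ (l i) := by
    intro σ τ hne
    by_contra hcon
    push Not at hcon
    apply hne
    refine IntermediateField.algHom_ext_of_eq_adjoin _ hK ?_
    rintro _ ⟨i, rfl⟩
    exact hcon i
  have hcard : Fintype.card (K →ₐ[F] ℂ) = finrank F K := AlgHom.card F K ℂ
  -- a generic combination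
  have hgen : ∃ y : Fin N → ℚ, Function.Injective
      fun σ : K →ₐ[F] ℂ => σ (∑ i, (y i : K) * l i) := by
    set s : Finset (Subspace ℚ (Fin N → ℚ)) :=
      (Finset.univ.filter fun p : (K →ₐ[F] ℂ) × (K →ₐ[F] ℂ) => p.1 ≠ p.2).image fun p =>
        LinearMap.ker (Fintype.linearCombination ℚ fun i => p.1 (l i) - p.2 (l i)) with hs
    have htop : ⊤ ∉ s := by
      intro h0
      rw [hs, Finset.mem_image] at h0
      obtain ⟨⟨σ, τ⟩, hst, h1⟩ := h0
      obtain ⟨i, hi⟩ := hdiff σ τ (Finset.mem_filter.1 hst).2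
      have h2 : (Pi.single i 1 : Fin N → ℚ) ∈
          LinearMap.ker (Fintype.linearCombination ℚ fun i => σ (l i) - τ (l i)) := by
        rw [h1]
        trivial
      rw [LinearMap.mem_ker, Fintype.linearCombination_apply_single, one_smul] at h2
      exact hi (sub_eq_zero.1 h2)
    have h3 := Subspace.biUnion_ne_univ_of_top_notMem htop
    obtain ⟨y, hy⟩ := (Set.ne_univ_iff_exists_notMem _).1 h3
    refine ⟨y, fun σ τ hst => ?_⟩
    by_contra hne
    apply hy
    refine Set.mem_biUnion (x := LinearMap.ker (Fintype.linearCombination ℚ fun i =>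
      σ (l i) - τ (l i))) ?_ ?_
    · rw [hs]
      exact Finset.mem_coe.2 (Finset.mem_image.2 ⟨(σ, τ), Finset.mem_filter.2 ⟨Finset.mem_univ _, hne⟩, rfl⟩)
    · rw [SetLike.mem_coe, LinearMap.mem_ker, Fintype.linearCombination_apply]
      have h4 : σ (∑ i, (y i : K) * l i) = τ (∑ i, (y i : K) * l i) := hst
      rw [map_sum, map_sum, ← sub_eq_zero, ← Finset.sum_sub_distrib] at h4
      rw [← h4]
      refine Finset.sum_congr rfl fun i _ => ?_
      rw [map_mul, map_mul, map_ratCast, map_ratCast, ← mul_sub, Rat.smul_def]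
  obtain ⟨y, hy⟩ := hgen
  obtain ⟨Q, hQ, hdeg, hv⟩ := h y
  set v : K := ∑ i, (y i : K) * l i with hvdef
  have hvC : (v : ℂ) = ∑ i, (y i : ℂ) * lam i := by
    rw [hvdef]
    push_cast
    rfl
  have hvK : Polynomial.aeval v Q = 0 := by
    have h5 : Polynomial.aeval (K.val v) Q = K.val (Polynomial.aeval v Q) :=
      Polynomial.aeval_algHom_apply _ _ _
    have h6 : K.val v = ∑ i, (y i : ℂ) * lam i := hvC
    rw [h6, hv] at h5
    exact (map_eq_zero K.val).1 h5.symm
  have hroot : ∀ σ : K →ₐ[F] ℂ, σ v ∈ Q.rootSet ℂ := by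
    intro σ
    rw [Polynomial.mem_rootSet]
    refine ⟨hQ, ?_⟩
    rw [Polynomial.aeval_algHom_apply, hvK, map_zero]
  rw [← hcard]
  have h1 : Fintype.card (K →ₐ[F] ℂ) ≤ (Q.rootSet ℂ).toFinset.card := by
    rw [← Finset.card_univ]
    refine Finset.card_le_card_of_injOn (fun σ => σ v) ?_ hy.injOn
    intro σ _
    simpa using hroot σ
  refine h1.trans ?_
  rw [← Set.ncard_eq_toFinset_card']
  exact (Polynomial.ncard_rootSet_le Q ℂ).trans hdeg

/-- A common denominator: every element of the span over `Qa (u)` of `e` is, up to a factor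
`g (u)`, in `Un u ^ C` times the span over `Qa`. -/
theorem exists_den {δ : ℕ} {u : ℂ} (e : Fin δ → ℂ)
    (f : Fin δ → IntermediateField.adjoin Qa {u}) :
    ∃ (g : Polynomial Qa) (C : ℕ), g ≠ 0 ∧ Polynomial.aeval u g * (∑ j, (f j : ℂ) * e j) ∈
      Un u ^ C * Submodule.span Qa (Set.range e) := by
  classical
  have h1 : ∀ j, ∃ p q : Polynomial Qa, q ≠ 0 ∧ Polynomial.aeval u q * (f j : ℂ) = Polynomial.aeval u p := by
    intro j
    obtain ⟨r, s, hrs⟩ := (IntermediateField.mem_adjoin_simple_iff Qa _).1 (f j).2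
    by_cases h0 : Polynomial.aeval u s = 0
    · refine ⟨0, 1, one_ne_zero, ?_⟩
      rw [hrs, h0, div_zero, mul_zero, map_zero]
    · refine ⟨r, s, fun hs => h0 (by rw [hs, map_zero]), ?_⟩
      rw [hrs, mul_div_cancel₀ _ h0]
  choose p q hq hpq using h1
  refine ⟨∏ j, q j, Finset.univ.sup fun j => (p j * ∏ i ∈ Finset.univ.erase j, q i).natDegree,
    Finset.prod_ne_zero_iff.2 fun j _ => hq j, ?_⟩
  rw [Finset.mul_sum]
  refine Submodule.sum_mem _ fun j _ => ?_
  have h2 : Polynomial.aeval u (∏ j, q j) * ((f j : ℂ) * e j) =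
      Polynomial.aeval u (p j * ∏ i ∈ Finset.univ.erase j, q i) * e j := by
    rw [← Finset.mul_prod_erase Finset.univ q (Finset.mem_univ j), map_mul, map_mul, ← hpq j]
    ring
  rw [h2]
  exact Submodule.mul_mem_mul (aeval_mem_Un u _ (Finset.le_sup
    (f := fun j => (p j * ∏ i ∈ Finset.univ.erase j, q i).natDegree) (Finset.mem_univ j)))
    (Submodule.subset_span ⟨j, rfl⟩)

/-- monotony -/
theorem den_mono {δ : ℕ} {u : ℂ} (e : Fin δ → ℂ) {g : Polynomial Qa} {C : ℕ} (g' : Polynomial Qa)
    {C' : ℕ} (hC : C + g'.natDegree ≤ C') {b : ℂ}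
    (h : Polynomial.aeval u g * b ∈ Un u ^ C * Submodule.span Qa (Set.range e)) :
    Polynomial.aeval u (g * g') * b ∈ Un u ^ C' * Submodule.span Qa (Set.range e) := by
  have h1 : Polynomial.aeval u (g * g') * b = Polynomial.aeval u g' * (Polynomial.aeval u g * b) := by
    rw [map_mul]
    ring
  rw [h1]
  have h2 : Polynomial.aeval u g' * (Polynomial.aeval u g * b) ∈
      Un u ^ g'.natDegree * (Un u ^ C * Submodule.span Qa (Set.range e)) :=
    Submodule.mul_mem_mul (aeval_mem_Un u _ le_rfl) h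
  rw [← mul_assoc, ← pow_add, add_comm] at h2
  exact mul_le_mul' (pow_le_pow_right₀ (one_le_Un u) hC) le_rfl h2

/-- PROOF. `F = Qa (u)` (`IntermediateField.adjoin Qa {u}` in `ℂ`), `K = F (lam)`
(`IntermediateField.adjoin F (Set.range lam)`). Each `lam i` is algebraic over `F` (the relation
`P (u, lam i) = 0` is not trivial in `lam i`, since `u` is transcendental over `Qa`), so `K / F` is finite and
separable, with `δ = [K : F]` embeddings in an algebraic closure of `F`. For two different embeddings the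
rational vectors `y` with the same value at `∑ y i lam i` form a proper subspace of `Fin N → ℚ`; `ℚ` is
infinite, so some `y` avoids all of them (`Subspace.biUnion_ne_univ_of_top_notMem` or similar). Then
`v = ∑ y i lam i` has `δ` conjugates, so its minimal polynomial over `F` has degree `≥ δ`; by the relation
`P (u, v) = 0` it has degree `≤ D`. So `δ ≤ D`.
Next let `B ≤ Sp lam ^ e` be finite dimensional (here `B = Sp lam ^ e`), `B ⊆ K`. Take a basis `e_1, …, e_δ` of `K / F`; the
finitely many coefficients of a basis of `B` are quotients `p_ij (u) / g (u)` with a common denominator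
(`IntermediateField.mem_adjoin_simple_iff`), so `g (u) * B ≤ ∑ j, Un u ^ C * e_j` and
`g (u) * (B * Un u ^ m) ≤ ∑ j, Un u ^ (C + m) * e_j`, of dimension at most `δ (C + m + 1)`. -/
theorem degree_bound {N D : ℕ} (lam : Fin N → ℂ) (u : ℂ) (hu : Transcendental Qa u)
    (h : ∀ y : Fin N → ℚ, Rel D u (∑ i, (y i : ℂ) * lam i)) (e : ℕ) :
    ∃ C : ℕ, ∀ m : ℕ, finrank Qa ↥(Sp lam ^ e * Un u ^ m) ≤ D * (m + C) := by
  classical
  set F := IntermediateField.adjoin Qa {u} with hF
  have huF : u ∈ F := IntermediateField.mem_adjoin_simple_self Qa u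
  set K := IntermediateField.adjoin F (Set.range lam) with hK
  obtain ⟨hfin, hle⟩ := finrank_le (D := D) F lam fun y => rel_poly hu huF (h y)
  have hfin' : Module.Finite F K := hfin
  set bs : Basis (Fin (finrank F K)) F K := finBasis F K with hbs
  set ev : Fin (finrank F K) → ℂ := fun j => (bs j : ℂ) with hev
  -- the elements of `K`
  have hden1 : ∀ b ∈ K, ∃ (g : Polynomial Qa) (C : ℕ), g ≠ 0 ∧ Polynomial.aeval u g * b ∈
      Un u ^ C * Submodule.span Qa (Set.range ev) := by
    intro b hb
    have h1 := congrArg (fun z : K => (z : ℂ)) (bs.sum_repr ⟨b, hb⟩)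
    have h2 : b = ∑ j, (bs.repr ⟨b, hb⟩ j : ℂ) * ev j := by
      have h3 : ((∑ j, bs.repr ⟨b, hb⟩ j • bs j : K) : ℂ) = b := h1
      refine h3.symm.trans ?_
      push_cast
      rfl
    obtain ⟨g, C, hg, h4⟩ := exists_den ev fun j => bs.repr ⟨b, hb⟩ j
    exact ⟨g, C, hg, by rw [← h2] at h4; exact h4⟩
  -- finite sets
  have hden2 : ∀ s : Finset ℂ, (∀ b ∈ s, b ∈ K) → ∃ (g : Polynomial Qa) (C : ℕ), g ≠ 0 ∧
      ∀ b ∈ s, Polynomial.aeval u g * b ∈ Un u ^ C * Submodule.span Qa (Set.range ev) := by
    intro s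
    induction s using Finset.induction_on with
    | empty => exact fun _ => ⟨1, 0, one_ne_zero, fun b hb => absurd hb (Finset.notMem_empty _)⟩
    | insert a s _ ih =>
      intro hs
      obtain ⟨g, C, hg, h1⟩ := ih fun b hb => hs b (Finset.mem_insert_of_mem hb)
      obtain ⟨g', C', hg', h2⟩ := hden1 a (hs a (Finset.mem_insert_self _ _))
      refine ⟨g * g', C + C' + g.natDegree + g'.natDegree, mul_ne_zero hg hg', fun b hb => ?_⟩
      rcases Finset.mem_insert.1 hb with rfl | hb
      · rw [mul_comm g g']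
        exact den_mono ev g (by omega) h2
      · exact den_mono ev g' (by omega) (h1 b hb)
  -- the space `Sp lam ^ e`
  have hBfg : (Sp lam ^ e).FG := by
    refine Submodule.FG.pow ?_ e
    exact Submodule.fg_span ((Set.finite_singleton _).union (Set.finite_range _))
  have hBK : ∀ b ∈ Sp lam ^ e, b ∈ K := by
    have h2 : Sp lam ≤ Subalgebra.toSubmodule ((K.restrictScalars Qa).toSubalgebra) := by
      rw [Sp, Submodule.span_le]
      rintro x (rfl | ⟨i, rfl⟩)
      · exact one_mem K
      · exact IntermediateField.subset_adjoin F _ ⟨i, rfl⟩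
    have h1 : ∀ n : ℕ, Sp lam ^ n ≤ Subalgebra.toSubmodule ((K.restrictScalars Qa).toSubalgebra) := by
      intro n
      induction n with
      | zero =>
        rw [pow_zero, Submodule.one_le]
        exact one_mem K
      | succ n ih =>
        rw [pow_succ]
        refine Submodule.mul_le.2 fun x hx y hy => ?_
        exact mul_mem (S := IntermediateField F ℂ) (s := K) (ih hx) (h2 hy)
    intro b hb
    exact h1 e hb
  obtain ⟨s, hs⟩ := hBfg
  obtain ⟨g, C, hg, h5⟩ := hden2 s fun b hb => hBK b (hs ▸ Submodule.subset_span hb)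
  have hg0 : Polynomial.aeval u g ≠ 0 := by
    intro h0
    exact hu ⟨g, hg, h0⟩
  have h6 : ∀ b ∈ Sp lam ^ e, Polynomial.aeval u g * b ∈
      Un u ^ C * Submodule.span Qa (Set.range ev) := by
    intro b hb
    rw [← hs] at hb
    induction hb using Submodule.span_induction with
    | mem x hx => exact h5 x hx
    | zero => rw [mul_zero]; exact Submodule.zero_mem _
    | add x y _ _ hx hy => rw [mul_add]; exact Submodule.add_mem _ hx hy
    | smul a x _ hx => rw [mul_smul_comm]; exact Submodule.smul_mem _ _ hx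
  refine ⟨C + 1, fun m => ?_⟩
  have h7 : ∀ x ∈ Sp lam ^ e * Un u ^ m, Polynomial.aeval u g * x ∈
      Un u ^ (m + C) * Submodule.span Qa (Set.range ev) := by
    intro x hx
    induction hx using Submodule.mul_induction_on' with
    | mem_mul_mem b hb w hw =>
      have h8 := Submodule.mul_mem_mul hw (h6 b hb)
      rw [← mul_assoc, ← pow_add] at h8
      have h9 : Polynomial.aeval u g * (b * w) = w * (Polynomial.aeval u g * b) := by ring
      rw [h9]
      exact h8
    | add x _ y _ hx hy => rw [mul_add]; exact Submodule.add_mem _ hx hy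
  obtain ⟨h10, h11⟩ := finrank_Un_mul u ev (m + C)
  have h12 : finrank Qa ↥(Sp lam ^ e * Un u ^ m) ≤
      finrank Qa ↥(Un u ^ (m + C) * Submodule.span Qa (Set.range ev)) := by
    refine LinearMap.finrank_le_finrank_of_injective
      (f := (LinearMap.mulLeft Qa (Polynomial.aeval u g)).restrict h7) ?_
    intro x y hxy
    have h13 : Polynomial.aeval u g * (x : ℂ) = Polynomial.aeval u g * (y : ℂ) :=
      congrArg Subtype.val hxy
    exact Subtype.ext (mul_left_cancel₀ hg0 h13)
  refine h12.trans (h11.trans ?_)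
  rw [Fintype.card_fin, mul_comm]
  exact Nat.mul_le_mul hle (by omega)

end MP60829e.HF
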