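import Pool.Agent.Lib.MP_60829e_nt.HF.Defs

/-! # Reductions

`U` is a reduction of `S` if `S ^ (e + 1) ≤ S ^ e * U` for some `e` (as for ideals). -/

open Module

namespace MP60829e.HF

open MP60829e.ST (Qa Lsp Lt)

/-- `U` is a reduction of `S` -/
def Reduc (S U : Submodule Qa ℂ) : Prop := ∃ e : ℕ, S ^ (e + 1) ≤ S ^ e * U

theorem Reduc.mono {S U V : Submodule Qa ℂ} (h : Reduc S U) (hU : U ≤ V) : Reduc S V := by
  obtain ⟨e, he⟩ := h
  exact ⟨e, he.trans (mul_le_mul' le_rfl hU)⟩

/-- PROOF. `S ^ (e + 1) ≤ S ^ e * U` and `U ^ (f + 1) ≤ U ^ f * U'` give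
`S ^ (e + f + 1) ≤ S ^ e * U ^ (f + 1) ≤ S ^ e * U ^ f * U' ≤ S ^ (e + f) * U'` (induction; `U ≤ S`). -/
theorem Reduc.trans {S U U' : Submodule Qa ℂ} (h1 : Reduc S U) (h2 : Reduc U U') (hU : U ≤ S) :
    Reduc S U' := by
  obtain ⟨e, he⟩ := h1
  obtain ⟨f, hf⟩ := h2
  have h3 : ∀ k : ℕ, S ^ (e + k) ≤ S ^ e * U ^ k := by
    intro k
    induction k with
    | zero => rw [Nat.add_zero, pow_zero, mul_one]
    | succ k ih =>
      calc S ^ (e + (k + 1)) = S ^ (e + k) * S := by rw [← Nat.add_assoc, pow_succ]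
        _ ≤ S ^ e * U ^ k * S := mul_le_mul' ih le_rfl
        _ = S ^ (e + 1) * U ^ k := by ring
        _ ≤ S ^ e * U * U ^ k := mul_le_mul' he le_rfl
        _ = S ^ e * U ^ (k + 1) := by ring
  refine ⟨e + f, ?_⟩
  calc S ^ (e + f + 1) = S ^ (e + (f + 1)) := by rw [Nat.add_assoc]
    _ ≤ S ^ e * U ^ (f + 1) := h3 _
    _ ≤ S ^ e * (U ^ f * U') := mul_le_mul' le_rfl hf
    _ ≤ S ^ e * (S ^ f * U') :=
      mul_le_mul' le_rfl (mul_le_mul' (pow_le_pow_left' hU f) le_rfl)
    _ = S ^ (e + f) * U' := by ring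

theorem pow_sup_le (S R : Submodule Qa ℂ) (n : ℕ) :
    (S ⊔ R) ^ (n + 1) ≤ (S ⊔ R) ^ n * R ⊔ S ^ (n + 1) := by
  induction n with
  | zero =>
    rw [zero_add, pow_one, pow_one, pow_zero, one_mul, sup_comm]
  | succ n ih =>
    calc (S ⊔ R) ^ (n + 1 + 1) = (S ⊔ R) * (S ⊔ R) ^ (n + 1) := by ring
      _ ≤ (S ⊔ R) * ((S ⊔ R) ^ n * R ⊔ S ^ (n + 1)) := mul_le_mul' le_rfl ih
      _ = (S ⊔ R) * ((S ⊔ R) ^ n * R) ⊔ (S ⊔ R) * S ^ (n + 1) := Submodule.mul_sup _ _ _
      _ = (S ⊔ R) ^ (n + 1) * R ⊔ (S * S ^ (n + 1) ⊔ R * S ^ (n + 1)) := by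
        rw [Submodule.sup_mul S R (S ^ (n + 1)), ← mul_assoc, ← pow_succ']
      _ ≤ (S ⊔ R) ^ (n + 1) * R ⊔ S ^ (n + 1 + 1) := by
        refine sup_le le_sup_left (sup_le ?_ ?_)
        · rw [← pow_succ']
          exact le_sup_right
        · rw [mul_comm]
          exact le_sup_of_le_left
            (mul_le_mul' (pow_le_pow_left' le_sup_left (n + 1)) le_rfl)

/-- PROOF. `(S ⊔ R) ^ (e + 1) = ⨆ S ^ j * R ^ (e + 1 - j)`: either a factor `R ≤ U ⊔ R`, or
`S ^ (e + 1) ≤ S ^ e * U`. Best: `(S ⊔ R) ^ (e + 1) ≤ (S ⊔ R) ^ e * R ⊔ S ^ (e + 1)` by induction on `e`. -/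
theorem Reduc.sup {S U : Submodule Qa ℂ} (h : Reduc S U) (R : Submodule Qa ℂ) :
    Reduc (S ⊔ R) (U ⊔ R) := by
  obtain ⟨e, he⟩ := h
  refine ⟨e, (pow_sup_le S R e).trans (sup_le ?_ ?_)⟩
  · exact mul_le_mul' le_rfl le_sup_right
  · exact he.trans (mul_le_mul' (pow_le_pow_left' le_sup_left e) le_sup_left)

/-- PROOF. A relation `P (z, w) = 0` of exact degree `e ≥ 1` (the total degree of `P`), with top form `F`.
For all but finitely many rational `c` one has `F (- c, 1) ≠ 0`; with `u = z + c w`, `z = u - c w`: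
`F (- c, 1) w ^ e ∈` span of the monomials `u ^ i w ^ j` with `i + j ≤ e`, `j < e`, so
`w ^ e ∈ S ^ (e - 1) * Un u`, `S = span {1, z, w} = span {1, u, w}`, and
`S ^ e` = span of `u ^ i w ^ j`, `i + j ≤ e`, is contained in `S ^ (e - 1) * Un u`. -/
theorem reduc_pair {D : ℕ} {z w : ℂ} (h : Rel D z w) :
    ∃ c : ℚ, Reduc (Submodule.span Qa {1, z, w}) (Un (z + c * w)) := by
  obtain ⟨P, hP0, -, hP⟩ := h
  -- the degree
  obtain ⟨n, hn⟩ : ∃ n, P.totalDegree = n + 1 := by
    refine ⟨P.totalDegree - 1, ?_⟩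
    have : P.totalDegree ≠ 0 := by
      intro h0
      rw [MvPolynomial.totalDegree_eq_zero_iff_eq_C] at h0
      rw [h0, MvPolynomial.aeval_C] at hP
      apply hP0
      rw [h0]
      have h1 : MvPolynomial.coeff 0 P = 0 :=
        (algebraMap Qa ℂ).injective (hP.trans (map_zero _).symm)
      rw [h1, map_zero]
    omega
  -- the top form, dehomogenized
  let T := P.support.filter fun m => m 0 + m 1 = n + 1
  let G : Polynomial Qa := ∑ m ∈ T, Polynomial.monomial (m 0) (MvPolynomial.coeff m P)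
  have hdeg : ∀ m ∈ P.support, m 0 + m 1 ≤ n + 1 := by
    intro m hm
    have h1 := MvPolynomial.le_totalDegree hm
    rw [hn] at h1
    have h2 : m.sum (fun _ e => e) = m 0 + m 1 := by
      rw [Finsupp.sum_fintype _ _ (fun _ => rfl), Fin.sum_univ_two]
    omega
  have hG : G ≠ 0 := by
    obtain ⟨m, hm, hmd⟩ : ∃ m ∈ P.support, m 0 + m 1 = n + 1 := by
      have h1 : P.support.Nonempty := MvPolynomial.support_nonempty.2 hP0
      obtain ⟨m, hm, hm2⟩ := Finset.exists_mem_eq_sup P.support h1 fun s => s.sum fun _ e => e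
      refine ⟨m, hm, ?_⟩
      rw [← hn]
      have h2 : m.sum (fun _ e => e) = m 0 + m 1 := by
        rw [Finsupp.sum_fintype _ _ (fun _ => rfl), Fin.sum_univ_two]
      rw [← h2]
      exact hm2.symm
    intro h0
    have h1 : G.coeff (m 0) = MvPolynomial.coeff m P := by
      rw [Polynomial.finsetSum_coeff, Finset.sum_eq_single m]
      · rw [Polynomial.coeff_monomial, if_pos rfl]
      · intro m' hm' hne
        rw [Polynomial.coeff_monomial, if_neg]
        intro h3
        apply hne
        have h4 := (Finset.mem_filter.1 hm').2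
        ext i
        fin_cases i
        · exact h3
        · change m' 1 = m 1
          omega
      · intro h3
        exact absurd (Finset.mem_filter.2 ⟨hm, hmd⟩) h3
    rw [h0, Polynomial.coeff_zero] at h1
    exact (MvPolynomial.mem_support_iff.1 hm) h1.symm
  obtain ⟨c, hc⟩ : ∃ c : ℚ, G.eval (-(algebraMap ℚ Qa c)) ≠ 0 := by
    by_contra hcon
    push Not at hcon
    apply hG
    refine Polynomial.eq_zero_of_infinite_isRoot G ?_
    refine Set.Infinite.mono (s := Set.range fun c : ℚ => -(algebraMap ℚ Qa c)) ?_ ?_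
    · rintro _ ⟨c, rfl⟩
      exact hcon c
    · refine Set.infinite_range_of_injective ?_
      intro a b hab
      exact (algebraMap ℚ Qa).injective (neg_injective hab)
  refine ⟨c, n, ?_⟩
  obtain ⟨u, hu⟩ : ∃ u : ℂ, u = z + c * w := ⟨_, rfl⟩
  rw [← hu]
  obtain ⟨S, hS⟩ : ∃ S : Submodule Qa ℂ, S = Submodule.span Qa {1, z, w} := ⟨_, rfl⟩
  rw [← hS]
  have h1S : (1 : ℂ) ∈ S := by rw [hS]; exact Submodule.subset_span (by simp)
  have hzS : z ∈ S := by rw [hS]; exact Submodule.subset_span (by simp)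
  have hwS : w ∈ S := by rw [hS]; exact Submodule.subset_span (by simp)
  have h1U : (1 : ℂ) ∈ Un u := Submodule.subset_span (by simp)
  have huU : u ∈ Un u := Submodule.subset_span (by simp)
  have hmon : ∀ a b : ℕ, a ≤ b → S ^ a ≤ S ^ b := by
    intro a b hab
    obtain ⟨k, rfl⟩ := Nat.exists_eq_add_of_le hab
    intro x hx
    rw [pow_add, ← mul_one x]
    refine Submodule.mul_mem_mul hx ?_
    have := Submodule.pow_mem_pow S h1S k
    rwa [one_pow] at this
  have hmem : ∀ i j : ℕ, z ^ i * w ^ j ∈ S ^ (i + j) := by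
    intro i j
    rw [pow_add]
    exact Submodule.mul_mem_mul (Submodule.pow_mem_pow S hzS i) (Submodule.pow_mem_pow S hwS j)
  -- low monomials
  have hlow : ∀ i j : ℕ, i + j ≤ n → z ^ i * w ^ j ∈ S ^ n * Un u := by
    intro i j hij
    rw [← mul_one (z ^ i * w ^ j)]
    exact Submodule.mul_mem_mul (hmon _ _ hij (hmem i j)) h1U
  -- top monomials
  have htop : ∀ i j : ℕ, i + j = n + 1 →
      z ^ i * w ^ j - (-(algebraMap ℚ Qa c)) ^ i • w ^ (n + 1) ∈ S ^ n * Un u := by
    intro i
    induction i with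
    | zero =>
      intro j hj
      have : j = n + 1 := by omega
      rw [this, pow_zero, pow_zero, one_mul, one_smul, sub_self]
      exact Submodule.zero_mem _
    | succ i ih =>
      intro j hj
      have h1 := ih (j + 1) (by omega)
      have h2 : z ^ i * w ^ j * u ∈ S ^ n * Un u := by
        refine Submodule.mul_mem_mul ?_ huU
        have h3 := hmem i j
        rwa [show i + j = n by omega] at h3
      have h3 : z ^ (i + 1) * w ^ j - (-(algebraMap ℚ Qa c)) ^ (i + 1) • w ^ (n + 1) =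
          z ^ i * w ^ j * u + (-(algebraMap ℚ Qa c)) •
            (z ^ i * w ^ (j + 1) - (-(algebraMap ℚ Qa c)) ^ i • w ^ (n + 1)) := by
        rw [hu]
        simp only [Algebra.smul_def, map_neg, map_pow]
        have h4 : algebraMap Qa ℂ (algebraMap ℚ Qa c) = (c : ℂ) := by
          rw [← IsScalarTower.algebraMap_apply ℚ Qa ℂ]
          rfl
        rw [h4]
        ring
      rw [h3]
      exact Submodule.add_mem _ h2 (Submodule.smul_mem _ _ h1)
  -- the power of `w`
  have hw : w ^ (n + 1) ∈ S ^ n * Un u := by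
    have h1 : MvPolynomial.aeval ![z, w] P =
        ∑ m ∈ P.support, MvPolynomial.coeff m P • (z ^ m 0 * w ^ m 1) := by
      conv_lhs => rw [P.as_sum]
      rw [map_sum]
      refine Finset.sum_congr rfl fun m _ => ?_
      rw [MvPolynomial.aeval_monomial, Algebra.smul_def]
      congr 1
      rw [Finsupp.prod_fintype _ _ (fun _ => pow_zero _), Fin.prod_univ_two]
      rfl
    have h2 : ∀ m ∈ P.support, MvPolynomial.coeff m P • (z ^ m 0 * w ^ m 1) -
        (if m 0 + m 1 = n + 1 then
          (MvPolynomial.coeff m P * (-(algebraMap ℚ Qa c)) ^ m 0) • w ^ (n + 1) else 0) ∈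
        S ^ n * Un u := by
      intro m hm
      by_cases hm2 : m 0 + m 1 = n + 1
      · rw [if_pos hm2, mul_smul, ← smul_sub]
        exact Submodule.smul_mem _ _ (htop _ _ hm2)
      · rw [if_neg hm2, sub_zero]
        have := hdeg m hm
        exact Submodule.smul_mem _ _ (hlow _ _ (by omega))
    have h3 := Submodule.sum_mem _ h2
    rw [Finset.sum_sub_distrib, ← h1, hP, zero_sub, ← Finset.sum_filter,
      ← Finset.sum_smul] at h3
    have h4 : ∑ m ∈ P.support.filter (fun m => m 0 + m 1 = n + 1),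
        MvPolynomial.coeff m P * (-(algebraMap ℚ Qa c)) ^ m 0 =
        G.eval (-(algebraMap ℚ Qa c)) := by
      rw [Polynomial.eval_finsetSum]
      refine Finset.sum_congr rfl fun m _ => ?_
      rw [Polynomial.eval_monomial]
    rw [h4] at h3
    have h5 := Submodule.smul_mem _ (G.eval (-(algebraMap ℚ Qa c)))⁻¹ (Submodule.neg_mem _ h3)
    rwa [neg_neg, smul_smul, inv_mul_cancel₀ hc, one_smul] at h5
  -- the space
  have hSW : S = Submodule.span Qa {w} ⊔ Un u := by
    apply le_antisymm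
    · rw [hS]
      refine Submodule.span_le.2 ?_
      rintro x hx
      simp only [Set.mem_insert_iff, Set.mem_singleton_iff] at hx
      rcases hx with rfl | rfl | rfl
      · exact Submodule.mem_sup_right h1U
      · have h2 : x = (-(algebraMap ℚ Qa c)) • w + u := by
          rw [hu]
          simp only [Algebra.smul_def, map_neg]
          have h4 : algebraMap Qa ℂ (algebraMap ℚ Qa c) = (c : ℂ) := by
            rw [← IsScalarTower.algebraMap_apply ℚ Qa ℂ]
            rfl
          rw [h4]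
          ring
        rw [h2]
        exact Submodule.add_mem_sup
          (Submodule.smul_mem _ _ (Submodule.mem_span_singleton_self w)) huU
      · exact Submodule.mem_sup_left (Submodule.mem_span_singleton_self x)
    · refine sup_le ?_ ?_
      · rw [Submodule.span_singleton_le_iff_mem]
        exact hwS
      · refine Submodule.span_le.2 ?_
        rintro x hx
        simp only [Set.mem_insert_iff, Set.mem_singleton_iff] at hx
        rcases hx with rfl | rfl
        · exact h1S
        · rw [hu]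
          have h4 : (c : ℂ) * w = (algebraMap ℚ Qa c) • w := by
            rw [Algebra.smul_def, ← IsScalarTower.algebraMap_apply ℚ Qa ℂ]
            rfl
          rw [h4]
          exact S.add_mem hzS (S.smul_mem _ hwS)
  have h6 := pow_sup_le (Submodule.span Qa {w}) (Un u) n
  rw [← hSW] at h6
  refine h6.trans (sup_le le_rfl ?_)
  rw [Submodule.span_pow, Set.singleton_pow, Submodule.span_singleton_le_iff_mem]
  exact hw

/-- PROOF. Induction over the number of logarithms already merged: `T = Un u ⊔ span (lam j, j > i)` is a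
reduction of `Sp lam`, `u` in the `ℚ`-span of `lam`; `reduc_pair` for `(u, lam i)`, `Reduc.sup`, `Reduc.trans`. -/
theorem reduc_all {N D : ℕ} (hN : 1 ≤ N) (lam : Fin N → ℂ)
    (h : ∀ x y : Fin N → ℚ, Rel D (∑ i, (x i : ℂ) * lam i) (∑ i, (y i : ℂ) * lam i)) :
    ∃ x : Fin N → ℚ, Reduc (Sp lam) (Un (∑ i, (x i : ℂ) * lam i)) := by
  have hsingle : ∀ j : Fin N, ∑ i, ((Pi.single j (1 : ℚ) : Fin N → ℚ) i : ℂ) * lam i = lam j := by
    intro j
    rw [Finset.sum_eq_single j]
    · rw [Pi.single_eq_same, Rat.cast_one, one_mul]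
    · intro b _ hb
      rw [Pi.single_eq_of_ne hb, Rat.cast_zero, zero_mul]
    · intro hj
      exact absurd (Finset.mem_univ _) hj
  have hxS : ∀ x : Fin N → ℚ, ∑ i, (x i : ℂ) * lam i ∈ Sp lam := by
    intro x
    refine Submodule.sum_mem _ fun i _ => ?_
    have h4 : (x i : ℂ) * lam i = (algebraMap ℚ Qa (x i)) • lam i := by
      rw [Algebra.smul_def, ← IsScalarTower.algebraMap_apply ℚ Qa ℂ]
      rfl
    rw [h4]
    exact Submodule.smul_mem _ _ (mem_Sp lam i)
  have hUn : ∀ x : Fin N → ℚ, Un (∑ i, (x i : ℂ) * lam i) ≤ Sp lam := by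
    intro x
    refine Submodule.span_le.2 ?_
    intro y hy
    simp only [Set.mem_insert_iff, Set.mem_singleton_iff] at hy
    rcases hy with rfl | rfl
    · exact one_mem_Sp lam
    · exact hxS x
  have key : ∀ k : ℕ, k + 1 ≤ N → ∃ x : Fin N → ℚ, Reduc (Sp lam)
      (Un (∑ i, (x i : ℂ) * lam i) ⊔ Submodule.span Qa (lam '' {j | k + 1 ≤ (j : ℕ)})) := by
    intro k
    induction k with
    | zero =>
      intro hk
      refine ⟨Pi.single ⟨0, hk⟩ 1, 0, ?_⟩
      rw [hsingle, zero_add, pow_one, pow_zero, one_mul]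
      refine Submodule.span_le.2 ?_
      rintro y (hy | ⟨i, rfl⟩)
      · rw [Set.mem_singleton_iff] at hy
        rw [hy]
        exact Submodule.mem_sup_left (Submodule.subset_span (by simp))
      · rcases Nat.eq_zero_or_pos (i : ℕ) with h0 | h0
        · have : i = ⟨0, hk⟩ := Fin.ext h0
          rw [this]
          exact Submodule.mem_sup_left (Submodule.subset_span (by simp))
        · exact Submodule.mem_sup_right (Submodule.subset_span ⟨i, h0, rfl⟩)
    | succ k ih =>
      intro hk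
      obtain ⟨x, hx⟩ := ih (by omega)
      obtain ⟨c, hc⟩ := reduc_pair (h x (Pi.single ⟨k + 1, hk⟩ 1))
      rw [hsingle] at hc
      refine ⟨x + c • Pi.single ⟨k + 1, hk⟩ 1, ?_⟩
      have h1 : ∑ i, (((x + c • Pi.single ⟨k + 1, hk⟩ (1 : ℚ)) : Fin N → ℚ) i : ℂ) * lam i =
          ∑ i, (x i : ℂ) * lam i + c * lam ⟨k + 1, hk⟩ := by
        rw [← hsingle ⟨k + 1, hk⟩, Finset.mul_sum, ← Finset.sum_add_distrib]
        refine Finset.sum_congr rfl fun i _ => ?_
        rw [Pi.add_apply, Pi.smul_apply, smul_eq_mul, Rat.cast_add, Rat.cast_mul]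
        ring
      rw [h1]
      obtain ⟨R, hR⟩ : ∃ R : Submodule Qa ℂ,
          R = Submodule.span Qa (lam '' {j | k + 1 + 1 ≤ (j : ℕ)}) := ⟨_, rfl⟩
      rw [← hR]
      have hRS : R ≤ Sp lam := by
        rw [hR]
        refine Submodule.span_le.2 ?_
        rintro _ ⟨j, -, rfl⟩
        exact mem_Sp lam j
      have h2 := hc.sup R
      refine Reduc.trans (hx.mono (V := Submodule.span Qa
        {1, ∑ i, (x i : ℂ) * lam i, lam ⟨k + 1, hk⟩} ⊔ R) ?_) h2 ?_
      · refine sup_le ?_ ?_
        · refine le_sup_of_le_left (Submodule.span_mono ?_)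
          intro y hy
          simp only [Set.mem_insert_iff, Set.mem_singleton_iff] at hy ⊢
          rcases hy with rfl | rfl
          · exact Or.inl rfl
          · exact Or.inr (Or.inl rfl)
        · refine Submodule.span_le.2 ?_
          rintro _ ⟨j, hj, rfl⟩
          have hj' : k + 1 ≤ (j : ℕ) := hj
          rcases Nat.lt_or_ge (k + 1) (j : ℕ) with h0 | h0
          · refine Submodule.mem_sup_right ?_
            rw [hR]
            exact Submodule.subset_span ⟨j, h0, rfl⟩
          · have : j = ⟨k + 1, hk⟩ := Fin.ext (by change (j : ℕ) = k + 1; omega)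
            rw [this]
            exact Submodule.mem_sup_left (Submodule.subset_span (by simp))
      · refine sup_le ?_ hRS
        refine Submodule.span_le.2 ?_
        intro y hy
        simp only [Set.mem_insert_iff, Set.mem_singleton_iff] at hy
        rcases hy with rfl | rfl | rfl
        · exact one_mem_Sp lam
        · exact hxS x
        · exact mem_Sp lam _
  obtain ⟨x, hx⟩ := key (N - 1) (by omega)
  refine ⟨x, hx.mono ?_⟩
  refine sup_le le_rfl ?_
  refine Submodule.span_le.2 ?_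
  rintro _ ⟨j, hj, rfl⟩
  have hj' : N - 1 + 1 ≤ (j : ℕ) := hj
  have := j.isLt
  omega

end MP60829e.HF
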