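import Pool.Agent.Lib.MP_60829e_nt.HF.Grow
import Pool.Agent.Lib.MP_60829e_nt.HF.Red
import Pool.Agent.Lib.MP_60829e_nt.HF.Prim

/-! # Generic pairs have no relation of small degree -/

open Module

namespace MP60829e.HF

open MP60829e.ST (Qa Lsp Lt)

theorem half_mul (N : ℕ) : N / 2 * (N - N / 2) = N * N / 4 := by
  rcases Nat.even_or_odd' N with ⟨k, hk | hk⟩
  · subst hk
    rw [show 2 * k / 2 = k by omega, show 2 * k - k = k by omega,
      show 2 * k * (2 * k) = k * k * 4 by ring, Nat.mul_div_cancel _ (by norm_num)]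
  · subst hk
    rw [show (2 * k + 1) / 2 = k by omega, show 2 * k + 1 - k = k + 1 by omega]
    have h : (2 * k + 1) * (2 * k + 1) = k * (k + 1) * 4 + 1 := by ring
    rw [h]
    omega

theorem fin_pow {N : ℕ} (lam : Fin N → ℂ) (m : ℕ) : FiniteDimensional Qa ↥(Sp lam ^ m) :=
  Module.Finite.iff_fg.2 ((Module.Finite.iff_fg.1 (fin_Sp lam)).pow m)

/-- The value at `1` of the Hilbert function, from below. -/
theorem le_finrank_one {N : ℕ} (lam : Fin N → ℂ) (hlam : LinearIndependent Qa lam) :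
    N ≤ finrank Qa ↥(Sp lam ^ 1) := by
  have := fin_pow lam 1
  have h1 : Submodule.span Qa (Set.range lam) ≤ Sp lam ^ 1 := by
    rw [pow_one]
    exact Submodule.span_mono Set.subset_union_right
  have h2 := Submodule.finrank_mono h1
  rw [finrank_span_eq_card hlam, Fintype.card_fin] at h2
  exact h2

/-- Growth of the Hilbert function. -/
theorem pow_lower {N : ℕ} (lam : Fin N → ℂ) (hlam : LinearIndependent Qa lam)
    (hlog : ∀ i, lam i ∈ Lsp) (m : ℕ) :
    finrank Qa ↥(Sp lam ^ 1) + m * (N * N / 4) ≤ finrank Qa ↥(Sp lam ^ (m + 1)) := by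
  induction m with
  | zero => rw [Nat.zero_mul, add_zero, zero_add]
  | succ m ih =>
    have h1 := le_finrank_one lam hlam
    have h2 := grow lam hlam hlog (d := N / 2) (m := m + 1) (by omega)
      (by
        have : N / 2 ≤ N := Nat.div_le_self _ _
        have := Nat.zero_le (m * (N * N / 4))
        omega)
    rw [half_mul] at h2
    have h3 : (m + 1) * (N * N / 4) = m * (N * N / 4) + N * N / 4 := by ring
    omega

theorem Reduc.pow_le {S U : Submodule Qa ℂ} {e : ℕ} (h : S ^ (e + 1) ≤ S ^ e * U) (m : ℕ) :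
    S ^ (e + m) ≤ S ^ e * U ^ m := by
  induction m with
  | zero => rw [add_zero, pow_zero, mul_one]
  | succ m ih =>
    calc S ^ (e + (m + 1)) = S ^ (e + m) * S := by rw [← pow_succ, add_assoc]
      _ ≤ S ^ e * U ^ m * S := mul_le_mul' ih le_rfl
      _ = S ^ (e + 1) * U ^ m := by rw [pow_succ]; ring
      _ ≤ S ^ e * U * U ^ m := mul_le_mul' h le_rfl
      _ = S ^ e * U ^ (m + 1) := by rw [pow_succ]; ring

/-- If all pairs are related in degree `D`, then `floor (N ^ 2 / 4) ≤ D`. -/
theorem all_pairs {N D : ℕ} (lam : Fin N → ℂ) (hlam : LinearIndependent Qa lam)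
    (hlog : ∀ i, lam i ∈ Lsp)
    (h : ∀ x y : Fin N → ℚ, Rel D (∑ i, (x i : ℂ) * lam i) (∑ i, (y i : ℂ) * lam i)) :
    N * N / 4 ≤ D := by
  by_contra hlt
  have hq : 1 ≤ N * N / 4 := by omega
  have hN : 1 ≤ N := by
    rcases Nat.eq_zero_or_pos N with h0 | h0
    · subst h0
      simp at hq
    · exact h0
  obtain ⟨x, e, he⟩ := reduc_all hN lam h
  obtain ⟨u, hu⟩ : ∃ u, u = ∑ i, (x i : ℂ) * lam i := ⟨_, rfl⟩
  rw [← hu] at he
  have hgrow : ∀ m, m * (N * N / 4) ≤ finrank Qa ↥(Sp lam ^ (m + 1)) := fun m =>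
    (Nat.le_add_left _ _).trans (pow_lower lam hlam hlog m)
  have hmono : ∀ m, Sp lam ^ m ≤ Sp lam ^ (m + 1) := by
    intro m
    rw [pow_succ]
    intro a ha
    rw [← mul_one a]
    exact Submodule.mul_mem_mul ha (one_mem_Sp lam)
  have hpos : 1 ≤ finrank Qa ↥(Sp lam ^ e) := by
    have := fin_pow lam e
    have h1 : (1 : Submodule Qa ℂ) ≤ Sp lam ^ e := by
      rw [Submodule.one_le]
      clear he
      induction e with
      | zero => rw [pow_zero]; exact Submodule.one_le.1 le_rfl
      | succ e ih => exact hmono e (ih (fin_pow lam e))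
    refine Nat.one_le_iff_ne_zero.2 fun h0 => ?_
    have h2 := Submodule.finrank_eq_zero.1 h0
    have h3 : (1 : ℂ) ∈ Sp lam ^ e := Submodule.one_le.1 h1
    rw [h2, Submodule.mem_bot] at h3
    exact one_ne_zero h3
  have htr : Transcendental Qa u := by
    intro halg
    -- `u` is then in `Qa`
    have hu1 : u ∈ (1 : Submodule Qa ℂ) := by
      have hQa : Algebra.IsAlgebraic ℚ Qa := algebraicClosure.isAlgebraic ℚ ℂ
      have h1 : IsAlgebraic ℚ u := halg.restrictScalars ℚ
      rw [Submodule.mem_one]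
      exact ⟨⟨u, mem_algebraicClosure_iff.2 h1⟩, rfl⟩
    have hU : Un u ≤ 1 := by
      refine Submodule.span_le.2 ?_
      rintro y (rfl | hy)
      · exact Submodule.one_le.1 le_rfl
      · rw [Set.mem_singleton_iff] at hy
        rw [hy]
        exact hu1
    have hall : ∀ m, Sp lam ^ (e + m) ≤ Sp lam ^ e := by
      intro m
      refine (Reduc.pow_le he m).trans ?_
      calc Sp lam ^ e * Un u ^ m ≤ Sp lam ^ e * 1 ^ m :=
            mul_le_mul' le_rfl (pow_le_pow_left' hU m)
        _ = Sp lam ^ e := by rw [one_pow, mul_one]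
    have := fin_pow lam e
    have h2 := Submodule.finrank_mono (hall (finrank Qa ↥(Sp lam ^ e) + 2))
    have h3 := hgrow (e + finrank Qa ↥(Sp lam ^ e) + 1)
    have h4 : e + finrank Qa ↥(Sp lam ^ e) + 1 ≤
        (e + finrank Qa ↥(Sp lam ^ e) + 1) * (N * N / 4) := Nat.le_mul_of_pos_right _ hq
    have h5 : e + finrank Qa ↥(Sp lam ^ e) + 1 + 1 = e + (finrank Qa ↥(Sp lam ^ e) + 2) := by ring
    rw [h5] at h3
    omega
  obtain ⟨C, hC⟩ := degree_bound lam u htr (fun y => by
    have := h x y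
    rwa [← hu] at this) e
  have hbound : ∀ m, finrank Qa ↥(Sp lam ^ (e + m)) ≤ D * (m + C) := by
    intro m
    refine le_trans ?_ (hC m)
    have : FiniteDimensional Qa ↥(Sp lam ^ e * Un u ^ m) := by
      refine Module.Finite.iff_fg.2 (Submodule.FG.mul (Module.Finite.iff_fg.1 (fin_pow lam e))
        (Submodule.FG.pow ?_ m))
      exact Module.Finite.iff_fg.1 (FiniteDimensional.span_of_finite Qa
        ((Set.finite_singleton _).insert _))
    exact Submodule.finrank_mono (Reduc.pow_le he m)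
  -- the comparison
  obtain ⟨K, hK⟩ : ∃ K, K = D * C + D + 1 := ⟨_, rfl⟩
  have h1 := hbound (K + 1)
  have h2 := hgrow (e + K)
  rw [show e + K + 1 = e + (K + 1) by ring] at h2
  have h3 := h2.trans h1
  have h4 : K * (D + 1) ≤ (e + K) * (N * N / 4) := Nat.mul_le_mul (by omega) (by omega)
  have h5 := h4.trans h3
  have h6 : K * (D + 1) = D * K + K := by ring
  have h7 : D * (K + 1 + C) = D * K + (D * C + D) := by ring
  rw [h6, h7] at h5
  omega

/-- **Generic pairs.** If `D < floor (N ^ 2 / 4)` some pair of rational combinations satisfies no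
relation of degree at most `D`. -/
theorem exists_pair {N D : ℕ} (lam : Fin N → ℂ) (hlam : LinearIndependent Qa lam)
    (hlog : ∀ i, lam i ∈ Lsp) (hD : D < N * N / 4) :
    ∃ x y : Fin N → ℚ, ¬ Rel D (∑ i, (x i : ℂ) * lam i) (∑ i, (y i : ℂ) * lam i) := by
  by_contra hcon
  push Not at hcon
  have := all_pairs lam hlam hlog hcon
  omega

end MP60829e.HF
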